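import Mathlib

/-!
Abstract combinatorial core.  Vectors are lists of integers (columns = coordinates, in order).
A good relation is an equivalence relation on equal-length lists, invariant under inserting a
zero column, such that every three-term arithmetic progression with squared step `96` meets
exactly two classes.
-/

set_option autoImplicit false

namespace Pool.Agent.Lib.MP_22634b_co

/-- three aligned lists in arithmetic progression, with squared step `c` -/
inductive AP : ℤ → List ℤ → List ℤ → List ℤ → Prop
  | nil : AP 0 [] [] []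
  | cons {c : ℤ} {x y z : List ℤ} (a b d : ℤ) (h : a + d = 2 * b) (t : AP c x y z) :
      AP ((b - a) ^ 2 + c) (a :: x) (b :: y) (d :: z)

theorem AP.append {c c' : ℤ} {x y z x' y' z' : List ℤ} (h : AP c x y z) (h' : AP c' x' y' z') :
    AP (c + c') (x ++ x') (y ++ y') (z ++ z') := by
  induction h with
  | nil => simpa using h'
  | cons a b d h t ih =>
    rw [add_assoc]
    exact AP.cons a b d h ih

theorem AP.refl (l : List ℤ) : AP 0 l l l := by
  induction l with
  | nil => exact AP.nil
  | cons a l ih => simpa using AP.cons a a a (by ring) ih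

theorem AP.rep (n : ℕ) (a b d : ℤ) (h : a + d = 2 * b) :
    AP (n * (b - a) ^ 2) (List.replicate n a) (List.replicate n b) (List.replicate n d) := by
  induction n with
  | zero => simpa using AP.nil
  | succ n ih =>
    rw [List.replicate_succ, List.replicate_succ, List.replicate_succ]
    have := AP.cons a b d h ih
    convert this using 1
    push_cast; ring

theorem AP.reverse {c : ℤ} {x y z : List ℤ} (h : AP c x y z) :
    AP c x.reverse y.reverse z.reverse := by
  induction h with
  | nil => exact AP.nil
  | cons a b d h t ih =>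
    rw [List.reverse_cons, List.reverse_cons, List.reverse_cons]
    have := ih.append (AP.cons a b d h AP.nil)
    convert this using 1
    ring

theorem AP.cast {c c' : ℤ} {x y z : List ℤ} (h : AP c x y z) (hc : c = c') : AP c' x y z := hc ▸ h

/-- good relations -/
structure Good (R : List ℤ → List ℤ → Prop) : Prop where
  len : ∀ {x y}, R x y → x.length = y.length
  refl : ∀ x, R x x
  symm : ∀ {x y}, R x y → R y x
  trans : ∀ {x y z}, R x y → R y z → R x z
  zero : ∀ {x1 x2 y1 y2 : List ℤ}, x1.length = y1.length →
    (R (x1 ++ 0 :: x2) (y1 ++ 0 :: y2) ↔ R (x1 ++ x2) (y1 ++ y2))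
  some : ∀ {x y z}, AP 96 x y z → R x y ∨ R y z ∨ R x z
  nmono : ∀ {x y z}, AP 96 x y z → R x y → R y z → False

/-- zero columns -/
def zs (n : ℕ) : List ℤ := List.replicate n 0
/-- columns with entry one -/
def on (n : ℕ) : List ℤ := List.replicate n 1
/-- columns with entry two -/
def tw (n : ℕ) : List ℤ := List.replicate n 2

@[simp] theorem length_zs (n : ℕ) : (zs n).length = n := by simp [zs]
@[simp] theorem length_on (n : ℕ) : (on n).length = n := by simp [on]
@[simp] theorem length_tw (n : ℕ) : (tw n).length = n := by simp [tw]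

theorem zs_succ (n : ℕ) : zs (n + 1) = 0 :: zs n := by simp [zs, List.replicate_succ]
theorem tw_succ (n : ℕ) : tw (n + 1) = 2 :: tw n := by simp [tw, List.replicate_succ]
theorem tw_succ' (n : ℕ) : tw (n + 1) = tw n ++ [2] := by simp [tw, List.replicate_succ']
theorem tw_add (m n : ℕ) : tw (m + n) = tw m ++ tw n := by simp [tw, List.replicate_append_replicate]
theorem zs_add (m n : ℕ) : zs (m + n) = zs m ++ zs n := by simp [zs, List.replicate_append_replicate]
theorem on_add (m n : ℕ) : on (m + n) = on m ++ on n := by simp [on, List.replicate_append_replicate]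

/-- delete zeros -/
def dz (l : List ℤ) : List ℤ := l.filter (fun a => decide (a ≠ 0))

@[simp] theorem dz_nil : dz [] = [] := rfl
@[simp] theorem dz_append (a b : List ℤ) : dz (a ++ b) = dz a ++ dz b := by simp [dz]
theorem dz_cons_zero (l : List ℤ) : dz (0 :: l) = dz l := by simp [dz]
theorem dz_cons_ne {a : ℤ} (h : a ≠ 0) (l : List ℤ) : dz (a :: l) = a :: dz l := by simp [dz, h]
@[simp] theorem dz_zs (n : ℕ) : dz (zs n) = [] := by
  simp [dz, zs]
@[simp] theorem dz_tw (n : ℕ) : dz (tw n) = tw n := by
  simp [dz, tw]
@[simp] theorem dz_dz (l : List ℤ) : dz (dz l) = dz l := by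
  simp [dz]

theorem length_dz_le (l : List ℤ) : (dz l).length ≤ l.length := List.length_filter_le _ _

section

variable {R : List ℤ → List ℤ → Prop}

theorem Good.zeros (hR : Good R) {x1 x2 y1 y2 : List ℤ} (n : ℕ) (hl : x1.length = y1.length) :
    R (x1 ++ zs n ++ x2) (y1 ++ zs n ++ y2) ↔ R (x1 ++ x2) (y1 ++ y2) := by
  induction n with
  | zero => simp [zs]
  | succ n ih =>
    rw [← ih, zs_succ]
    have := hR.zero (x1 := x1) (x2 := zs n ++ x2) (y1 := y1) (y2 := zs n ++ y2) hl
    simpa [List.append_assoc] using this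

theorem Good.ctx_left (hR : Good R) (s r x y : List ℤ) :
    R (r ++ s ++ x) (r ++ s ++ y) ↔ R (r ++ dz s ++ x) (r ++ dz s ++ y) := by
  induction s generalizing r with
  | nil => simp
  | cons a s ih =>
    by_cases ha : a = 0
    · subst ha
      rw [dz_cons_zero, ← ih]
      have := hR.zero (x1 := r) (x2 := s ++ x) (y1 := r) (y2 := s ++ y) rfl
      simpa [List.append_assoc] using this
    · rw [dz_cons_ne ha]
      have := ih (r ++ [a])
      simpa [List.append_assoc] using this

theorem Good.ctx_right (hR : Good R) (s x y : List ℤ) (hl : x.length = y.length) :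
    R (x ++ s) (y ++ s) ↔ R (x ++ dz s) (y ++ dz s) := by
  induction s generalizing x y with
  | nil => simp
  | cons a s ih =>
    by_cases ha : a = 0
    · subst ha
      rw [dz_cons_zero, ← ih x y hl]
      exact hR.zero (x1 := x) (x2 := s) (y1 := y) (y2 := s) hl
    · rw [dz_cons_ne ha]
      have := ih (x ++ [a]) (y ++ [a]) (by simp [hl])
      simpa [List.append_assoc] using this

theorem Good.ctx (hR : Good R) (s1 s2 x y : List ℤ) (hl : x.length = y.length) :
    R (s1 ++ x ++ s2) (s1 ++ y ++ s2) ↔ R (dz s1 ++ x ++ dz s2) (dz s1 ++ y ++ dz s2) := by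
  rw [hR.ctx_right s2 (s1 ++ x) (s1 ++ y) (by simp [hl])]
  have := hR.ctx_left s1 [] (x ++ dz s2) (y ++ dz s2)
  simpa [List.append_assoc] using this

theorem Good.ctx_congr (hR : Good R) {s1 s2 t1 t2 x y : List ℤ} (hl : x.length = y.length)
    (h1 : dz s1 = dz t1) (h2 : dz s2 = dz t2) (h : R (s1 ++ x ++ s2) (s1 ++ y ++ s2)) :
    R (t1 ++ x ++ t2) (t1 ++ y ++ t2) := by
  rw [hR.ctx _ _ _ _ hl] at h ⊢
  rwa [← h1, ← h2]

/-- the block `B` can be moved one step to the right in the given context -/
def Fr (R : List ℤ → List ℤ → Prop) (s1 B s2 : List ℤ) : Prop :=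
  R (s1 ++ B ++ zs B.length ++ s2) (s1 ++ zs B.length ++ B ++ s2)

theorem Good.fr_congr (hR : Good R) {s1 s2 t1 t2 B : List ℤ}
    (h1 : dz s1 = dz t1) (h2 : dz s2 = dz t2) (h : Fr R s1 B s2) : Fr R t1 B t2 := by
  unfold Fr at *
  have := hR.ctx_congr (x := B ++ zs B.length) (y := zs B.length ++ B) (s1 := s1) (s2 := s2)
    (t1 := t1) (t2 := t2) (by simp) h1 h2 (by simpa [List.append_assoc] using h)
  simpa [List.append_assoc] using this

theorem Good.n1 (hR : Good R) {s1 s2 t1 t2 B : List ℤ} (hl : s1.length = t1.length)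
    (h : R (s1 ++ B ++ s2) (t1 ++ zs B.length ++ t2)) : Fr R s1 B s2 := by
  have ha : R (s1 ++ B ++ zs B.length ++ s2) (t1 ++ zs B.length ++ zs B.length ++ t2) := by
    rw [hR.zeros (x1 := s1 ++ B) (y1 := t1 ++ zs B.length) B.length (by simp [hl])]
    exact h
  have hb : R (s1 ++ zs B.length ++ B ++ s2) (t1 ++ zs B.length ++ zs B.length ++ t2) := by
    have := (hR.zeros (x1 := s1) (y1 := t1) (x2 := B ++ s2) (y2 := zs B.length ++ t2)
      B.length hl).2 (by simpa [List.append_assoc] using h)
    simpa [List.append_assoc] using this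
  exact hR.trans ha (hR.symm hb)

/-- every letter of a free block is free -/
theorem Good.fr_letter (hR : Good R) {s1 s2 B1 B2 : List ℤ} {a : ℤ}
    (h : Fr R s1 (B1 ++ a :: B2) s2) : Fr R (s1 ++ B1) [a] (B2 ++ s2) := by
  unfold Fr at h
  have h' : R ((s1 ++ B1) ++ [a] ++ (B2 ++ zs (B1 ++ a :: B2).length ++ s2))
      ((s1 ++ zs B1.length) ++ zs ([a] : List ℤ).length ++
        (zs B2.length ++ (B1 ++ a :: B2) ++ s2)) := by
    have e1 : s1 ++ (B1 ++ a :: B2) ++ zs (B1 ++ a :: B2).length ++ s2 =
      (s1 ++ B1) ++ [a] ++ (B2 ++ zs (B1 ++ a :: B2).length ++ s2) := by simp [List.append_assoc]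
    have e2 : s1 ++ zs (B1 ++ a :: B2).length ++ (B1 ++ a :: B2) ++ s2 =
      (s1 ++ zs B1.length) ++ zs ([a] : List ℤ).length ++
        (zs B2.length ++ (B1 ++ a :: B2) ++ s2) := by
      have : (B1 ++ a :: B2).length = B1.length + (1 + B2.length) := by
        simp; omega
      rw [this, zs_add, zs_add]
      simp [List.append_assoc]
    rw [e1, e2] at h
    exact h
  have h2 := hR.n1 (by simp) h'
  exact hR.fr_congr rfl (by simp) h2

/-- if `x ≈ y`, both with block `B` at the same columns, and `B` is free in `y`, then it is free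
in `x` -/
theorem Good.fr_transfer (hR : Good R) {s1 s2 t1 t2 B : List ℤ} (hl : s1.length = t1.length)
    (h : R (s1 ++ B ++ s2) (t1 ++ B ++ t2)) (hf : Fr R t1 B t2) : Fr R s1 B s2 := by
  have ha : R (s1 ++ B ++ zs B.length ++ s2) (t1 ++ B ++ zs B.length ++ t2) := by
    rw [hR.zeros (x1 := s1 ++ B) (y1 := t1 ++ B) B.length (by simp [hl])]
    exact h
  have hb := hR.trans ha hf
  have h2 := hR.n1 (s1 := s1) (B := B) (s2 := zs B.length ++ s2) (t1 := t1)
    (t2 := B ++ t2) hl (by simpa [List.append_assoc] using hb)
  exact hR.fr_congr rfl (by simp) h2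

/-- all letters of the word `w` are free in the context -/
def AF (R : List ℤ → List ℤ → Prop) (s1 w s2 : List ℤ) : Prop :=
  ∀ w1 a w2, w = w1 ++ a :: w2 → Fr R (s1 ++ w1) [a] (w2 ++ s2)

theorem Good.af_of_fr (hR : Good R) {s1 w s2 : List ℤ} (h : Fr R s1 w s2) : AF R s1 w s2 := by
  intro w1 a w2 hw
  subst hw
  exact hR.fr_letter h

theorem Good.af_congr (hR : Good R) {s1 s2 t1 t2 w : List ℤ}
    (h1 : dz s1 = dz t1) (h2 : dz s2 = dz t2) (h : AF R s1 w s2) : AF R t1 w t2 := by
  intro w1 a w2 hw
  exact hR.fr_congr (by simp [h1]) (by simp [h2]) (h w1 a w2 hw)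

theorem af_nil {s1 s2 : List ℤ} : AF R s1 [] s2 := by
  intro w1 a w2 hw
  simp at hw

theorem af_cons {s1 s2 w : List ℤ} {a : ℤ} (h1 : Fr R s1 [a] (w ++ s2))
    (h2 : AF R (s1 ++ [a]) w s2) : AF R s1 (a :: w) s2 := by
  intro w1 b w2 hw
  cases w1 with
  | nil =>
    simp only [List.nil_append, List.cons.injEq] at hw
    obtain ⟨rfl, rfl⟩ := hw
    simpa using h1
  | cons c w1 =>
    simp only [List.cons_append, List.cons.injEq] at hw
    obtain ⟨rfl, hw⟩ := hw
    have := h2 w1 b w2 hw
    simpa [List.append_assoc] using this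

theorem af_append {s1 s2 w w' : List ℤ} (h1 : AF R s1 w (w' ++ s2))
    (h2 : AF R (s1 ++ w) w' s2) : AF R s1 (w ++ w') s2 := by
  induction w generalizing s1 with
  | nil => simpa using h2
  | cons a w ih =>
    rw [List.cons_append]
    apply af_cons
    · have := h1 [] a w rfl
      simpa [List.append_assoc] using this
    · apply ih
      · intro w1 b w2 hw
        have := h1 (a :: w1) b w2 (by simp [hw])
        simpa [List.append_assoc] using this
      · simpa [List.append_assoc] using h2

/-- moving a free word across a zero column -/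
theorem Good.shift (hR : Good R) (w : List ℤ) : ∀ {s1 s2 : List ℤ}, AF R s1 w s2 →
    R (s1 ++ 0 :: w ++ s2) (s1 ++ w ++ 0 :: s2) := by
  induction w with
  | nil => intro s1 s2 _; simpa using hR.refl _
  | cons a w ih =>
    intro s1 s2 h
    have h1 : Fr R s1 [a] (w ++ s2) := by simpa using h [] a w rfl
    have h2 : AF R (s1 ++ [a]) w s2 := by
      intro w1 b w2 hw
      have := h (a :: w1) b w2 (by simp [hw])
      simpa [List.append_assoc] using this
    have h3 := ih h2
    unfold Fr at h1
    have h4 : R (s1 ++ 0 :: (a :: w) ++ s2) (s1 ++ [a] ++ 0 :: w ++ s2) := by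
      have := hR.symm h1
      simpa [zs, List.append_assoc] using this
    refine hR.trans h4 ?_
    simpa [List.append_assoc] using h3

theorem Good.canon (hR : Good R) (u : List ℤ) : ∀ {s1 s2 : List ℤ}, AF R s1 (dz u) s2 →
    R (s1 ++ u ++ s2) (s1 ++ dz u ++ zs (u.length - (dz u).length) ++ s2) := by
  induction u with
  | nil => intro s1 s2 _; simpa [zs] using hR.refl _
  | cons a u ih =>
    intro s1 s2 h
    by_cases ha : a = 0
    · subst ha
      rw [dz_cons_zero] at h ⊢
      have h1 : AF R (s1 ++ [0]) (dz u) s2 :=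
        hR.af_congr (by simp [dz]) rfl h
      have h2 := ih h1
      have h3 : AF R s1 (dz u) (zs (u.length - (dz u).length) ++ s2) :=
        hR.af_congr rfl (by simp) h
      have h4 := hR.shift _ h3
      have hlen : (0 :: u).length - (dz u).length = (u.length - (dz u).length) + 1 := by
        have := length_dz_le u
        simp only [List.length_cons]; omega
      rw [hlen, zs_succ]
      refine hR.trans ?_ (hR.trans h2 ?_)
      · simpa [List.append_assoc] using hR.refl _
      · simpa [List.append_assoc] using h4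
    · rw [dz_cons_ne ha] at h ⊢
      have h2 : AF R (s1 ++ [a]) (dz u) s2 := by
        intro w1 b w2 hw
        have := h (a :: w1) b w2 (by simp [hw])
        simpa [List.append_assoc] using this
      have h3 := ih h2
      simpa [List.append_assoc] using h3

/-- two placements of the same free word are equivalent -/
theorem Good.place (hR : Good R) {u v s1 s2 : List ℤ} (hl : u.length = v.length)
    (hd : dz u = dz v) (h : AF R s1 (dz u) s2) : R (s1 ++ u ++ s2) (s1 ++ v ++ s2) := by
  have h1 := hR.canon u h
  have h2 := hR.canon v (hd ▸ h)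
  rw [← hd, ← hl] at h2
  exact hR.trans h1 (hR.symm h2)

/-- the reversed relation -/
theorem Good.rev (hR : Good R) : Good (fun x y => R x.reverse y.reverse) where
  len := by
    intro x y h
    simpa using hR.len h
  refl := fun x => hR.refl _
  symm := fun h => hR.symm h
  trans := fun h h' => hR.trans h h'
  zero := by
    intro x1 x2 y1 y2 hl
    constructor
    · intro h
      have hl2 : x2.length = y2.length := by
        have := hR.len h
        simp at this
        omega
      have := (hR.zero (x1 := x2.reverse) (x2 := x1.reverse) (y1 := y2.reverse)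
        (y2 := y1.reverse) (by simp [hl2])).1 (by simpa [List.append_assoc] using h)
      simpa using this
    · intro h
      have hl2 : x2.length = y2.length := by
        have := hR.len h
        simp at this
        omega
      have := (hR.zero (x1 := x2.reverse) (x2 := x1.reverse) (y1 := y2.reverse)
        (y2 := y1.reverse) (by simp [hl2])).2 (by simpa using h)
      simpa [List.append_assoc] using this
  some := fun h => hR.some h.reverse
  nmono := fun h h1 h2 => hR.nmono h.reverse h1 h2

end

end Pool.Agent.Lib.MP_22634b_co
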