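import Pool.Agent.Lib.MP_22634b_co.Run

set_option autoImplicit false

namespace Pool.Agent.Lib.MP_22634b_co

variable {R : List ℤ → List ℤ → Prop}

/-- the block `2, -2, 4, 2` -/
def BB : List ℤ := [2, -2, 4, 2]
/-- half of `BB` -/
def HH : List ℤ := [1, -1, 2, 1]
/-- outer companion -/
def C0 : List ℤ := [2, 2, 0, 2]
/-- middle companion -/
def C1 : List ℤ := [2, 0, 2, 2]

@[simp] theorem length_BB : BB.length = 4 := rfl
@[simp] theorem length_HH : HH.length = 4 := rfl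
@[simp] theorem length_C0 : C0.length = 4 := rfl
@[simp] theorem length_C1 : C1.length = 4 := rfl
@[simp] theorem dz_BB : dz BB = BB := by decide
@[simp] theorem dz_C0 : dz C0 = tw 3 := by decide
@[simp] theorem dz_C1 : dz C1 = tw 3 := by decide

theorem AP.bz : AP 7 BB HH (zs 4) :=
  (AP.cons 2 1 0 (by norm_num) (AP.cons (-2) (-1) 0 (by norm_num)
    (AP.cons 4 2 0 (by norm_num) (AP.cons 2 1 0 (by norm_num) AP.nil)))).cast (by norm_num)

theorem AP.zb : AP 7 (zs 4) HH BB :=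
  (AP.cons 0 1 2 (by norm_num) (AP.cons 0 (-1) (-2) (by norm_num)
    (AP.cons 0 2 4 (by norm_num) (AP.cons 0 1 2 (by norm_num) AP.nil)))).cast (by norm_num)

theorem AP.bc : AP 8 BB C1 C0 :=
  (AP.cons 2 2 2 (by norm_num) (AP.cons (-2) 0 2 (by norm_num)
    (AP.cons 4 2 0 (by norm_num) (AP.cons 2 2 2 (by norm_num) AP.nil)))).cast (by norm_num)

theorem AP.cb : AP 8 C0 C1 BB :=
  (AP.cons 2 2 2 (by norm_num) (AP.cons 2 0 (-2) (by norm_num)
    (AP.cons 0 2 4 (by norm_num) (AP.cons 2 2 2 (by norm_num) AP.nil)))).cast (by norm_num)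

/-- If the block is free after one fewer two (and before one more), then it is free. -/
theorem Good.ei (hR : Good R) (s1 s2 : List ℤ) (hw : Fr R s1 BB (tw 41 ++ s2)) :
    Fr R (s1 ++ tw 1) BB (tw 40 ++ s2) := by
  by_contra hn
  have ap1 : AP 96 (s1 ++ tw 1 ++ BB ++ zs 1 ++ zs 4 ++ tw 39 ++ tw 1 ++ zs 40 ++ s2)
      (s1 ++ on 1 ++ HH ++ on 1 ++ HH ++ on 39 ++ on 1 ++ on 40 ++ s2)
      (s1 ++ zs 1 ++ zs 4 ++ tw 1 ++ BB ++ zs 39 ++ zs 1 ++ tw 40 ++ s2) :=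
    (((((((((AP.refl s1).append (AP.tz 1)).append AP.bz).append (AP.zt 1)).append AP.zb).append
      (AP.tz 39)).append (AP.tz 1)).append (AP.zt 40)).append (AP.refl s2)).cast (by norm_num)
  have ap2 : AP 96 (s1 ++ zs 1 ++ BB ++ tw 1 ++ zs 4 ++ tw 39 ++ tw 1 ++ zs 40 ++ s2)
      (s1 ++ on 1 ++ HH ++ on 1 ++ HH ++ on 39 ++ on 1 ++ on 40 ++ s2)
      (s1 ++ tw 1 ++ zs 4 ++ zs 1 ++ BB ++ zs 39 ++ zs 1 ++ tw 40 ++ s2) :=
    (((((((((AP.refl s1).append (AP.zt 1)).append AP.bz).append (AP.tz 1)).append AP.zb).append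
      (AP.tz 39)).append (AP.tz 1)).append (AP.zt 40)).append (AP.refl s2)).cast (by norm_num)
  have ap3 : AP 96 (s1 ++ tw 1 ++ BB ++ tw 1 ++ zs 4 ++ tw 39 ++ zs 1 ++ zs 40 ++ s2)
      (s1 ++ on 1 ++ HH ++ on 1 ++ HH ++ on 39 ++ on 1 ++ on 40 ++ s2)
      (s1 ++ zs 1 ++ zs 4 ++ zs 1 ++ BB ++ zs 39 ++ tw 1 ++ tw 40 ++ s2) :=
    (((((((((AP.refl s1).append (AP.tz 1)).append AP.bz).append (AP.tz 1)).append AP.zb).append
      (AP.tz 39)).append (AP.zt 1)).append (AP.zt 40)).append (AP.refl s2)).cast (by norm_num)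
  have t40 : tw 40 = tw 39 ++ tw 1 := by rw [← tw_add]
  have t40' : tw 40 = tw 1 ++ tw 39 := by rw [← tw_add]
  have t41 : tw 41 = tw 40 ++ tw 1 := by rw [← tw_add]
  have t41' : tw 41 = tw 1 ++ tw 40 := by rw [← tw_add]
  -- a way to use `n1`
  have key : ∀ {u1 u2 v1 v2 : List ℤ}, u1.length = v1.length →
      dz u1 = dz (s1 ++ tw 1) → dz u2 = dz (tw 40 ++ s2) →
      R (u1 ++ BB ++ u2) (v1 ++ zs 4 ++ v2) → False := by
    intro u1 u2 v1 v2 hl h1 h2 h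
    have := hR.n1 (B := BB) hl h
    exact hn (hR.fr_congr h1 h2 this)
  -- transfer of freeness
  have key2 : ∀ {u1 u2 v1 v2 : List ℤ}, u1.length = v1.length →
      dz u1 = dz (s1 ++ tw 1) → dz u2 = dz (tw 40 ++ s2) →
      dz v1 = dz s1 → dz v2 = dz (tw 41 ++ s2) →
      R (u1 ++ BB ++ u2) (v1 ++ BB ++ v2) → False := by
    intro u1 u2 v1 v2 hl h1 h2 h3 h4 h
    have := hR.fr_transfer (B := BB) hl h (hR.fr_congr h3.symm h4.symm hw)
    exact hn (hR.fr_congr h1 h2 this)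
  -- the pair of ap1 is inequivalent
  have b1 : ¬ R (s1 ++ tw 1 ++ BB ++ zs 1 ++ zs 4 ++ tw 39 ++ tw 1 ++ zs 40 ++ s2)
      (s1 ++ zs 1 ++ zs 4 ++ tw 1 ++ BB ++ zs 39 ++ zs 1 ++ tw 40 ++ s2) := by
    intro h
    refine key (u1 := s1 ++ tw 1) (u2 := zs 1 ++ zs 4 ++ tw 39 ++ tw 1 ++ zs 40 ++ s2)
      (v1 := s1 ++ zs 1) (v2 := tw 1 ++ BB ++ zs 39 ++ zs 1 ++ tw 40 ++ s2) (by simp) (by simp)
      (by simp [t40]) ?_
    simpa [List.append_assoc] using h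
  have b2 : ¬ R (s1 ++ zs 1 ++ BB ++ tw 1 ++ zs 4 ++ tw 39 ++ tw 1 ++ zs 40 ++ s2)
      (s1 ++ tw 1 ++ zs 4 ++ zs 1 ++ BB ++ zs 39 ++ zs 1 ++ tw 40 ++ s2) := by
    intro h
    refine key (u1 := s1 ++ tw 1 ++ zs 4 ++ zs 1) (u2 := zs 39 ++ zs 1 ++ tw 40 ++ s2)
      (v1 := s1 ++ zs 1 ++ BB ++ tw 1) (v2 := tw 39 ++ tw 1 ++ zs 40 ++ s2) (by simp) (by simp)
      (by simp) ?_
    simpa [List.append_assoc] using hR.symm h
  have b3 : ¬ R (s1 ++ tw 1 ++ BB ++ tw 1 ++ zs 4 ++ tw 39 ++ zs 1 ++ zs 40 ++ s2)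
      (s1 ++ zs 1 ++ zs 4 ++ zs 1 ++ BB ++ zs 39 ++ tw 1 ++ tw 40 ++ s2) := by
    intro h
    refine key (u1 := s1 ++ tw 1) (u2 := tw 1 ++ zs 4 ++ tw 39 ++ zs 1 ++ zs 40 ++ s2)
      (v1 := s1 ++ zs 1) (v2 := zs 1 ++ BB ++ zs 39 ++ tw 1 ++ tw 40 ++ s2) (by simp) (by simp)
      (by simp [t40']) ?_
    simpa [List.append_assoc] using h
  rcases hR.two ap1 b1 with h1 | h1
  · -- Y ≈ X1
    rcases hR.two ap2 b2 with h2 | h2
    · -- Y ≈ X2 : transfer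
      have h := hR.trans h1 (hR.symm h2)
      refine key2 (u1 := s1 ++ tw 1) (u2 := zs 1 ++ zs 4 ++ tw 39 ++ tw 1 ++ zs 40 ++ s2)
        (v1 := s1 ++ zs 1) (v2 := tw 1 ++ zs 4 ++ tw 39 ++ tw 1 ++ zs 40 ++ s2) (by simp)
        (by simp) (by simp [t40]) (by simp) (by simp [t41', t40]) ?_
      simpa [List.append_assoc] using h
    · -- Y ≈ X2c
      have h := hR.trans h1 (hR.symm h2)
      refine key (u1 := s1 ++ tw 1) (u2 := zs 1 ++ zs 4 ++ tw 39 ++ tw 1 ++ zs 40 ++ s2)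
        (v1 := s1 ++ tw 1) (v2 := zs 1 ++ BB ++ zs 39 ++ zs 1 ++ tw 40 ++ s2) (by simp)
        (by simp) (by simp [t40]) ?_
      simpa [List.append_assoc] using h
  · -- Y ≈ X1c
    rcases hR.two ap3 b3 with h2 | h2
    · -- Y ≈ X3
      have h := hR.trans h2 (hR.symm h1)
      refine key (u1 := s1 ++ tw 1) (u2 := tw 1 ++ zs 4 ++ tw 39 ++ zs 1 ++ zs 40 ++ s2)
        (v1 := s1 ++ zs 1) (v2 := tw 1 ++ BB ++ zs 39 ++ zs 1 ++ tw 40 ++ s2) (by simp)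
        (by simp) (by simp [t40']) ?_
      simpa [List.append_assoc] using h
    · -- Y ≈ X3c : transfer
      have h := hR.trans h1 (hR.symm h2)
      refine key2 (u1 := s1 ++ zs 1 ++ zs 4 ++ tw 1) (u2 := zs 39 ++ zs 1 ++ tw 40 ++ s2)
        (v1 := s1 ++ zs 1 ++ zs 4 ++ zs 1) (v2 := zs 39 ++ tw 1 ++ tw 40 ++ s2) (by simp)
        (by simp) (by simp) (by simp) (by simp [t41']) ?_
      simpa [List.append_assoc] using h

/-- The block `BB` is free in a long run of twos. -/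
theorem Good.block_free (hR : Good R) (s1 s2 : List ℤ) :
    Fr R (s1 ++ tw 4) BB (tw 86 ++ s2) := by
  by_contra hz
  have e1 : ∀ n s, tw n ++ (tw 1 ++ s) = tw (n + 1) ++ s := by
    intro n s; rw [tw_add, List.append_assoc]
  -- the block is not free in the word of x
  have hx : ¬ Fr R (s1 ++ tw 1) BB (tw 89 ++ s2) := by
    intro h
    apply hz
    have h2 := hR.ei (s1 ++ tw 1) (tw 48 ++ s2) (by
      have : tw 89 = tw 41 ++ tw 48 := by rw [← tw_add]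
      rw [this, List.append_assoc] at h; exact h)
    have h3 := hR.ei (s1 ++ tw 1 ++ tw 1) (tw 47 ++ s2) (by
      have : tw 40 ++ (tw 48 ++ s2) = tw 41 ++ (tw 47 ++ s2) := by
        rw [← List.append_assoc, ← List.append_assoc, ← tw_add, ← tw_add]
      rw [this] at h2; exact h2)
    have h4 := hR.ei (s1 ++ tw 1 ++ tw 1 ++ tw 1) (tw 46 ++ s2) (by
      have : tw 40 ++ (tw 47 ++ s2) = tw 41 ++ (tw 46 ++ s2) := by
        rw [← List.append_assoc, ← List.append_assoc, ← tw_add, ← tw_add]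
      rw [this] at h3; exact h3)
    have ea : s1 ++ tw 1 ++ tw 1 ++ tw 1 ++ tw 1 = s1 ++ tw 4 := by
      simp only [List.append_assoc, ← tw_add]
    have eb : tw 40 ++ (tw 46 ++ s2) = tw 86 ++ s2 := by
      rw [← List.append_assoc, ← tw_add]
    rw [ea, eb] at h4
    exact h4
  have ap : AP 96 (s1 ++ tw 1 ++ BB ++ C0 ++ tw 46 ++ tw 40 ++ zs 40 ++ s2)
      (s1 ++ tw 1 ++ C1 ++ C1 ++ tw 46 ++ on 40 ++ on 40 ++ s2)
      (s1 ++ tw 1 ++ C0 ++ BB ++ tw 46 ++ zs 40 ++ tw 40 ++ s2) :=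
    ((((((((AP.refl s1).append (AP.refl (tw 1))).append AP.bc).append AP.cb).append
      (AP.refl (tw 46))).append (AP.tz 40)).append (AP.zt 40)).append (AP.refl s2)).cast
      (by norm_num)
  -- y with the first cell emptied
  have hy1 : R (s1 ++ tw 1 ++ C1 ++ zs 4 ++ C1 ++ tw 46 ++ on 40 ++ on 40 ++ s2)
      (s1 ++ tw 1 ++ zs 4 ++ C1 ++ C1 ++ tw 46 ++ on 40 ++ on 40 ++ s2) := by
    have h := hR.place (u := C1 ++ zs 4) (v := zs 4 ++ C1) (s1 := s1 ++ tw 1)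
      (s2 := C1 ++ tw 46 ++ on 40 ++ on 40 ++ s2) (by simp) (by simp) (by
        have := hR.af_run 3 s1 (tw 3 ++ on 40 ++ on 40 ++ s2)
        refine hR.af_congr (w := dz (C1 ++ zs 4)) rfl ?_ (by simpa using this)
        have e : tw 3 ++ tw 46 = tw 46 ++ tw 3 := by rw [← tw_add, ← tw_add]
        simp only [dz_append, dz_tw, dz_C1, List.append_assoc]
        rw [← List.append_assoc (tw 3) (tw 46), e, List.append_assoc])
    simpa [List.append_assoc] using h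
  have hy2 : R (s1 ++ tw 1 ++ C1 ++ C1 ++ zs 4 ++ tw 46 ++ on 40 ++ on 40 ++ s2)
      (s1 ++ tw 1 ++ C1 ++ zs 4 ++ C1 ++ tw 46 ++ on 40 ++ on 40 ++ s2) := by
    have h := hR.place (u := C1 ++ zs 4) (v := zs 4 ++ C1) (s1 := s1 ++ tw 1 ++ C1)
      (s2 := tw 46 ++ on 40 ++ on 40 ++ s2) (by simp) (by simp) (by
        have := hR.af_run 3 (s1 ++ tw 3) (on 40 ++ on 40 ++ s2)
        refine hR.af_congr (w := dz (C1 ++ zs 4)) (s1 := s1 ++ tw 3 ++ tw 1)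
          (s2 := tw 46 ++ (on 40 ++ on 40 ++ s2)) ?_ (by simp [List.append_assoc])
          (by simpa [List.append_assoc] using this)
        have e : tw 3 ++ tw 1 = tw 1 ++ tw 3 := by rw [← tw_add, ← tw_add]
        simp only [dz_append, dz_tw, dz_C1, List.append_assoc]
        rw [e])
    simpa [List.append_assoc] using h
  have hx2 : R (s1 ++ tw 1 ++ BB ++ C0 ++ zs 4 ++ tw 46 ++ tw 40 ++ zs 40 ++ s2)
      (s1 ++ tw 1 ++ BB ++ zs 4 ++ C0 ++ tw 46 ++ tw 40 ++ zs 40 ++ s2) := by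
    have h := hR.place (u := C0 ++ zs 4) (v := zs 4 ++ C0) (s1 := s1 ++ tw 1 ++ BB)
      (s2 := tw 46 ++ tw 40 ++ zs 40 ++ s2) (by simp) (by simp) (by
        have := hR.af_run 3 (s1 ++ tw 1 ++ [2, -2, 4]) (tw 40 ++ zs 40 ++ s2)
        refine hR.af_congr (w := dz (C0 ++ zs 4)) (s1 := s1 ++ tw 1 ++ [2, -2, 4] ++ tw 1)
          (s2 := tw 46 ++ (tw 40 ++ zs 40 ++ s2)) ?_ (by simp [List.append_assoc])
          (by simpa [List.append_assoc] using this)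
        simp only [dz_append, dz_tw, dz_BB, List.append_assoc]
        rfl)
    simpa [List.append_assoc] using h
  rcases hR.some ap with h | h | h
  · -- x ≈ y
    have h1 : R (s1 ++ tw 1 ++ BB ++ zs 4 ++ C0 ++ tw 46 ++ tw 40 ++ zs 40 ++ s2)
        (s1 ++ tw 1 ++ C1 ++ zs 4 ++ C1 ++ tw 46 ++ on 40 ++ on 40 ++ s2) := by
      have := (hR.zeros (x1 := s1 ++ tw 1 ++ BB) (y1 := s1 ++ tw 1 ++ C1)
        (x2 := C0 ++ tw 46 ++ tw 40 ++ zs 40 ++ s2) (y2 := C1 ++ tw 46 ++ on 40 ++ on 40 ++ s2)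
        4 (by simp)).2 (by simpa [List.append_assoc] using h)
      simpa [List.append_assoc] using this
    have h2 := hR.trans h1 hy1
    apply hx
    have h3 := hR.n1 (s1 := s1 ++ tw 1) (t1 := s1 ++ tw 1) (B := BB)
      (s2 := zs 4 ++ C0 ++ tw 46 ++ tw 40 ++ zs 40 ++ s2)
      (t2 := C1 ++ C1 ++ tw 46 ++ on 40 ++ on 40 ++ s2) rfl
      (by simpa [List.append_assoc] using h2)
    refine hR.fr_congr rfl ?_ h3
    simp only [dz_append, dz_tw, dz_zs, dz_C0, List.nil_append, List.append_assoc]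
    rw [← List.append_assoc, ← List.append_assoc, ← tw_add, ← tw_add]
  · -- y ≈ z
    have h1 : R (s1 ++ tw 1 ++ C0 ++ BB ++ zs 4 ++ tw 46 ++ zs 40 ++ tw 40 ++ s2)
        (s1 ++ tw 1 ++ C1 ++ C1 ++ zs 4 ++ tw 46 ++ on 40 ++ on 40 ++ s2) := by
      have := (hR.zeros (x1 := s1 ++ tw 1 ++ C0 ++ BB) (y1 := s1 ++ tw 1 ++ C1 ++ C1)
        (x2 := tw 46 ++ zs 40 ++ tw 40 ++ s2) (y2 := tw 46 ++ on 40 ++ on 40 ++ s2)
        4 (by simp)).2 (by simpa [List.append_assoc] using hR.symm h)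
      simpa [List.append_assoc] using this
    have h2 := hR.trans h1 hy2
    apply hz
    have h3 := hR.n1 (s1 := s1 ++ tw 1 ++ C0) (t1 := s1 ++ tw 1 ++ C1) (B := BB)
      (s2 := zs 4 ++ tw 46 ++ zs 40 ++ tw 40 ++ s2)
      (t2 := C1 ++ tw 46 ++ on 40 ++ on 40 ++ s2) (by simp)
      (by simpa [List.append_assoc] using h2)
    refine hR.fr_congr ?_ ?_ h3
    · simp only [dz_append, dz_tw, dz_C0, List.append_assoc]
      rw [← tw_add]
    · simp only [dz_append, dz_tw, dz_zs, List.nil_append, List.append_assoc]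
      rw [← List.append_assoc, ← tw_add]
  · -- x ≈ z
    have h1 : R (s1 ++ tw 1 ++ C0 ++ BB ++ zs 4 ++ tw 46 ++ zs 40 ++ tw 40 ++ s2)
        (s1 ++ tw 1 ++ BB ++ C0 ++ zs 4 ++ tw 46 ++ tw 40 ++ zs 40 ++ s2) := by
      have := (hR.zeros (x1 := s1 ++ tw 1 ++ C0 ++ BB) (y1 := s1 ++ tw 1 ++ BB ++ C0)
        (x2 := tw 46 ++ zs 40 ++ tw 40 ++ s2) (y2 := tw 46 ++ tw 40 ++ zs 40 ++ s2)
        4 (by simp)).2 (by simpa [List.append_assoc] using hR.symm h)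
      simpa [List.append_assoc] using this
    have h2 := hR.trans h1 hx2
    apply hz
    have h3 := hR.n1 (s1 := s1 ++ tw 1 ++ C0) (t1 := s1 ++ tw 1 ++ BB) (B := BB)
      (s2 := zs 4 ++ tw 46 ++ zs 40 ++ tw 40 ++ s2)
      (t2 := C0 ++ tw 46 ++ tw 40 ++ zs 40 ++ s2) (by simp)
      (by simpa [List.append_assoc] using h2)
    refine hR.fr_congr ?_ ?_ h3
    · simp only [dz_append, dz_tw, dz_C0, List.append_assoc]
      rw [← tw_add]
    · simp only [dz_append, dz_tw, dz_zs, List.nil_append, List.append_assoc]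
      rw [← List.append_assoc, ← tw_add]

end Pool.Agent.Lib.MP_22634b_co
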