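import Pool.Agent.Lib.MP_22634b_co.Block

set_option autoImplicit false

namespace Pool.Agent.Lib.MP_22634b_co

variable {R : List ℤ → List ℤ → Prop}

/-- the pair `-2, 4` -/
def bb : List ℤ := [-2, 4]
/-- half of `bb` -/
def hh : List ℤ := [-1, 2]

@[simp] theorem length_bb : bb.length = 2 := rfl
@[simp] theorem length_hh : hh.length = 2 := rfl
@[simp] theorem dz_bb : dz bb = bb := by decide

theorem AP.bbz : AP 5 bb hh (zs 2) :=
  (AP.cons (-2) (-1) 0 (by norm_num) (AP.cons 4 2 0 (by norm_num) AP.nil)).cast (by norm_num)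

theorem AP.zbb : AP 5 (zs 2) hh bb :=
  (AP.cons 0 (-1) (-2) (by norm_num) (AP.cons 0 2 4 (by norm_num) AP.nil)).cast (by norm_num)

theorem BB_eq : BB = tw 1 ++ bb ++ tw 1 := rfl

theorem tw_app (m n k : ℕ) (s : List ℤ) (h : m + n = k) : tw m ++ (tw n ++ s) = tw k ++ s := by
  rw [← List.append_assoc, ← tw_add, h]

theorem af_prefix {s1 s2 w w' : List ℤ} (h : AF R s1 (w ++ w') s2) : AF R s1 w (w' ++ s2) := by
  intro w1 a w2 hw
  have := h w1 a (w2 ++ w') (by simp [hw])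
  simpa [List.append_assoc] using this

theorem Good.af_main (hR : Good R) (i j : ℕ) (hj : 40 ≤ j) (s1 s2 : List ℤ) :
    AF R (s1 ++ tw 46) (tw i ++ BB ++ tw j) (tw 46 ++ s2) := by
  apply af_append
  · apply af_append
    · have := hR.af_run' i s1 (bb ++ tw 1 ++ (tw j ++ (tw 46 ++ s2)))
      simpa [BB_eq, List.append_assoc] using this
    · have h := hR.block_free (s1 ++ tw (42 + i)) (tw (j - 40) ++ s2)
      have h2 := hR.af_of_fr h
      refine hR.af_congr ?_ ?_ h2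
      · simp only [dz_append, dz_tw, List.append_assoc, ← tw_add]
        congr 2; omega
      · simp only [dz_append, dz_tw]
        rw [tw_app 86 (j - 40) (j + 46) _ (by omega), tw_app j 46 (j + 46) _ rfl]
  · have := hR.af_run j (s1 ++ tw 46 ++ tw i ++ tw 1 ++ bb) s2
    simpa [BB_eq, List.append_assoc] using this

/-- crossing of one two -/
theorem Good.cross (hR : Good R) (s1 s2 : List ℤ) :
    R (s1 ++ tw 48 ++ bb ++ tw 87 ++ s2) (s1 ++ tw 47 ++ bb ++ tw 88 ++ s2) := by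
  have ap1 : AP 96
      (s1 ++ tw 46 ++ tw 1 ++ tw 1 ++ bb ++ zs 1 ++ zs 1 ++ zs 2 ++ tw 40 ++ tw 1 ++ zs 41
        ++ (tw 46 ++ s2))
      (s1 ++ tw 46 ++ on 1 ++ on 1 ++ hh ++ on 1 ++ on 1 ++ hh ++ on 40 ++ on 1 ++ on 41
        ++ (tw 46 ++ s2))
      (s1 ++ tw 46 ++ zs 1 ++ zs 1 ++ zs 2 ++ tw 1 ++ tw 1 ++ bb ++ zs 40 ++ zs 1 ++ tw 41
        ++ (tw 46 ++ s2)) :=
    ((((((((((((AP.refl s1).append (AP.refl (tw 46))).append (AP.tz 1)).append
      (AP.tz 1)).append AP.bbz).append (AP.zt 1)).append (AP.zt 1)).append AP.zbb).append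
      (AP.tz 40)).append (AP.tz 1)).append (AP.zt 41)).append
      (AP.refl (tw 46 ++ s2))).cast (by norm_num)
  have ap4 : AP 96
      (s1 ++ tw 46 ++ tw 1 ++ zs 1 ++ bb ++ tw 1 ++ tw 1 ++ zs 2 ++ tw 40 ++ zs 1 ++ zs 41
        ++ (tw 46 ++ s2))
      (s1 ++ tw 46 ++ on 1 ++ on 1 ++ hh ++ on 1 ++ on 1 ++ hh ++ on 40 ++ on 1 ++ on 41
        ++ (tw 46 ++ s2))
      (s1 ++ tw 46 ++ zs 1 ++ tw 1 ++ zs 2 ++ zs 1 ++ zs 1 ++ bb ++ zs 40 ++ tw 1 ++ tw 41
        ++ (tw 46 ++ s2)) :=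
    ((((((((((((AP.refl s1).append (AP.refl (tw 46))).append (AP.tz 1)).append
      (AP.zt 1)).append AP.bbz).append (AP.tz 1)).append (AP.tz 1)).append AP.zbb).append
      (AP.tz 40)).append (AP.zt 1)).append (AP.zt 41)).append
      (AP.refl (tw 46 ++ s2))).cast (by norm_num)
  have ap3 : AP 96
      (s1 ++ tw 46 ++ tw 1 ++ tw 1 ++ bb ++ tw 1 ++ zs 1 ++ zs 2 ++ tw 40 ++ zs 1 ++ zs 41
        ++ (tw 46 ++ s2))
      (s1 ++ tw 46 ++ on 1 ++ on 1 ++ hh ++ on 1 ++ on 1 ++ hh ++ on 40 ++ on 1 ++ on 41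
        ++ (tw 46 ++ s2))
      (s1 ++ tw 46 ++ zs 1 ++ zs 1 ++ zs 2 ++ zs 1 ++ tw 1 ++ bb ++ zs 40 ++ tw 1 ++ tw 41
        ++ (tw 46 ++ s2)) :=
    ((((((((((((AP.refl s1).append (AP.refl (tw 46))).append (AP.tz 1)).append
      (AP.tz 1)).append AP.bbz).append (AP.tz 1)).append (AP.zt 1)).append AP.zbb).append
      (AP.tz 40)).append (AP.zt 1)).append (AP.zt 41)).append
      (AP.refl (tw 46 ++ s2))).cast (by norm_num)
  -- normal forms of the two words
  have wA : ∀ {a b c d : ℕ}, a + b = 2 → c + d = 41 →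
      tw a ++ (tw b ++ (bb ++ (tw c ++ tw d))) = tw 1 ++ BB ++ tw 40 := by
    intro a b c d h1 h2
    rw [← tw_add c d, h2, tw_app a b 2 _ h1, BB_eq]
    have e1 : tw 2 = tw 1 ++ tw 1 := by rw [← tw_add]
    have e2 : tw 41 = tw 1 ++ tw 40 := by rw [← tw_add]
    rw [e1, e2]; simp [List.append_assoc]
  have wB : ∀ {c d : ℕ}, c + d = 42 →
      tw 1 ++ (bb ++ (tw c ++ tw d)) = tw 0 ++ BB ++ tw 41 := by
    intro c d h2
    rw [← tw_add c d, h2, BB_eq]
    have e1 : tw 0 = [] := rfl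
    have e2 : tw 42 = tw 1 ++ tw 41 := by rw [← tw_add]
    rw [e1, e2]; simp [List.append_assoc]
  have afA := hR.af_main 1 40 le_rfl s1 s2
  have afB := hR.af_main 0 41 (by norm_num) s1 s2
  -- placements
  have pl : ∀ (u v w : List ℤ), dz u = w → dz v = w → u.length = v.length →
      AF R (s1 ++ tw 46) w (tw 46 ++ s2) →
      R (s1 ++ tw 46 ++ u ++ (tw 46 ++ s2)) (s1 ++ tw 46 ++ v ++ (tw 46 ++ s2)) := by
    intro u v w hu hv hl haf
    exact hR.place hl (hu.trans hv.symm) (hu.symm ▸ haf)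
  have d1 : dz (tw 1 ++ tw 1 ++ bb ++ zs 1 ++ zs 1 ++ zs 2 ++ tw 40 ++ tw 1 ++ zs 41) =
      tw 1 ++ BB ++ tw 40 := by
    simp only [dz_append, dz_tw, dz_zs, dz_bb, List.append_nil, List.append_assoc]
    exact wA rfl rfl
  have d1c : dz (zs 1 ++ zs 1 ++ zs 2 ++ tw 1 ++ tw 1 ++ bb ++ zs 40 ++ zs 1 ++ tw 41) =
      tw 1 ++ BB ++ tw 40 := by
    simp only [dz_append, dz_tw, dz_zs, dz_bb, List.append_assoc,
      List.nil_append]
    have := wA (a := 1) (b := 1) (c := 0) (d := 41) rfl rfl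
    simpa [tw] using this
  have d3 : dz (tw 1 ++ tw 1 ++ bb ++ tw 1 ++ zs 1 ++ zs 2 ++ tw 40 ++ zs 1 ++ zs 41) =
      tw 1 ++ BB ++ tw 40 := by
    simp only [dz_append, dz_tw, dz_zs, dz_bb, List.append_nil, List.append_assoc]
    exact wA rfl rfl
  have d3c : dz (zs 1 ++ zs 1 ++ zs 2 ++ zs 1 ++ tw 1 ++ bb ++ zs 40 ++ tw 1 ++ tw 41) =
      tw 0 ++ BB ++ tw 41 := by
    simp only [dz_append, dz_tw, dz_zs, dz_bb, List.append_assoc,
      List.nil_append]
    exact wB rfl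
  have d4 : dz (tw 1 ++ zs 1 ++ bb ++ tw 1 ++ tw 1 ++ zs 2 ++ tw 40 ++ zs 1 ++ zs 41) =
      tw 0 ++ BB ++ tw 41 := by
    simp only [dz_append, dz_tw, dz_zs, dz_bb, List.append_nil, List.append_assoc,
      List.nil_append]
    have := wB (c := 1) (d := 41) rfl
    rw [List.append_assoc] at this
    rw [← this]
    have e : tw 41 = tw 1 ++ tw 40 := by rw [← tw_add]
    rw [e]
  have d4c : dz (zs 1 ++ tw 1 ++ zs 2 ++ zs 1 ++ zs 1 ++ bb ++ zs 40 ++ tw 1 ++ tw 41) =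
      tw 0 ++ BB ++ tw 41 := by
    simp only [dz_append, dz_tw, dz_zs, dz_bb, List.append_assoc,
      List.nil_append]
    exact wB rfl
  have p1 := pl _ _ _ d1 d1c (by simp) afA
  have p13 := pl _ _ _ d1 d3 (by simp) afA
  have p4 := pl _ _ _ d4 d4c (by simp) afB
  have p43 := pl _ _ _ d4 d3c (by simp) afB
  simp only [List.append_assoc] at ap1 ap3 ap4 p1 p13 p4 p43
  -- Y is not equivalent to X1, X4
  have n1 := fun h => hR.nmono ap1 h (hR.trans (hR.symm h) p1)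
  have n4 := fun h => hR.nmono ap4 h (hR.trans (hR.symm h) p4)
  have key : R (s1 ++ (tw 46 ++ ((tw 1 ++ tw 1 ++ bb ++ tw 1 ++ zs 1 ++ zs 2 ++ tw 40 ++ zs 1
      ++ zs 41) ++ (tw 46 ++ s2))))
      (s1 ++ (tw 46 ++ ((zs 1 ++ zs 1 ++ zs 2 ++ zs 1 ++ tw 1 ++ bb ++ zs 40 ++ tw 1
      ++ tw 41) ++ (tw 46 ++ s2)))) := by
    simp only [List.append_assoc]
    rcases hR.some ap3 with h | h | h
    · exact absurd (hR.trans p13 h) n1
    · exact absurd (hR.trans p43 (hR.symm h)) n4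
    · exact h
  -- canonical placements
  have q1 := pl (tw 1 ++ BB ++ tw 40 ++ zs 45)
    (tw 1 ++ tw 1 ++ bb ++ tw 1 ++ zs 1 ++ zs 2 ++ tw 40 ++ zs 1 ++ zs 41)
    (tw 1 ++ BB ++ tw 40) (by simp) d3 (by simp) afA
  have q2 := pl (zs 1 ++ zs 1 ++ zs 2 ++ zs 1 ++ tw 1 ++ bb ++ zs 40 ++ tw 1 ++ tw 41)
    (tw 0 ++ BB ++ tw 41 ++ zs 45) (tw 0 ++ BB ++ tw 41) d3c (by simp) (by simp) afB
  have r1 : R (s1 ++ tw 46 ++ (tw 1 ++ BB ++ tw 40 ++ zs 45) ++ (tw 46 ++ s2))
      (s1 ++ tw 46 ++ (tw 0 ++ BB ++ tw 41 ++ zs 45) ++ (tw 46 ++ s2)) :=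
    hR.trans q1 (hR.trans (by simpa only [List.append_assoc] using key) q2)
  have r2 := (hR.zeros (x1 := s1 ++ tw 46 ++ (tw 1 ++ BB ++ tw 40))
    (y1 := s1 ++ tw 46 ++ (tw 0 ++ BB ++ tw 41)) (x2 := tw 46 ++ s2) (y2 := tw 46 ++ s2) 45
    (by simp)).1 (by simpa only [List.append_assoc] using r1)
  have f1 : s1 ++ tw 46 ++ (tw 1 ++ BB ++ tw 40) ++ (tw 46 ++ s2) =
      s1 ++ tw 48 ++ bb ++ tw 87 ++ s2 := by
    simp only [BB_eq, List.append_assoc]
    rw [tw_app 46 1 47 _ rfl, tw_app 47 1 48 _ rfl, tw_app 40 46 86 _ rfl, tw_app 1 86 87 _ rfl]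
  have f2 : s1 ++ tw 46 ++ (tw 0 ++ BB ++ tw 41) ++ (tw 46 ++ s2) =
      s1 ++ tw 47 ++ bb ++ tw 88 ++ s2 := by
    simp only [BB_eq, List.append_assoc]
    rw [tw_app 46 0 46 _ rfl, tw_app 46 1 47 _ rfl, tw_app 41 46 87 _ rfl, tw_app 1 87 88 _ rfl]
  rw [f1, f2] at r2
  exact r2

theorem Good.move (hR : Good R) (s1 s2 : List ℤ) (i : ℕ) (hi : 47 ≤ i) (k : ℕ) :
    ∀ j, 87 ≤ j → R (s1 ++ tw (i + k) ++ bb ++ tw j ++ s2) (s1 ++ tw i ++ bb ++ tw (j + k) ++ s2)
    := by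
  induction k with
  | zero => intro j _; exact hR.refl _
  | succ k ih =>
    intro j hj
    have h1 := hR.cross (s1 ++ tw (i + k - 47)) (tw (j - 87) ++ s2)
    have h2 := ih (j + 1) (by omega)
    have e1 : s1 ++ tw (i + k - 47) ++ tw 48 ++ bb ++ tw 87 ++ (tw (j - 87) ++ s2) =
        s1 ++ tw (i + (k + 1)) ++ bb ++ tw j ++ s2 := by
      simp only [List.append_assoc]
      rw [tw_app (i + k - 47) 48 (i + (k + 1)) _ (by omega), tw_app 87 (j - 87) j _ (by omega)]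
    have e2 : s1 ++ tw (i + k - 47) ++ tw 47 ++ bb ++ tw 88 ++ (tw (j - 87) ++ s2) =
        s1 ++ tw (i + k) ++ bb ++ tw (j + 1) ++ s2 := by
      simp only [List.append_assoc]
      rw [tw_app (i + k - 47) 47 (i + k) _ (by omega), tw_app 88 (j - 87) (j + 1) _ (by omega)]
    rw [e1, e2] at h1
    have e3 : j + 1 + k = j + (k + 1) := by omega
    rw [e3] at h2
    exact hR.trans h1 h2

/-- cells -/
def cA : List ℤ := [2, 0]
def cA' : List ℤ := [0, 2]

@[simp] theorem length_cA : cA.length = 2 := rfl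
@[simp] theorem length_cA' : cA'.length = 2 := rfl

theorem AP.ab : AP 8 cA cA' bb :=
  (AP.cons 2 0 (-2) (by norm_num) (AP.cons 0 2 4 (by norm_num) AP.nil)).cast (by norm_num)

theorem AP.ba : AP 8 bb cA' cA :=
  (AP.cons (-2) 0 2 (by norm_num) (AP.cons 4 2 0 (by norm_num) AP.nil)).cast (by norm_num)

theorem Good.swap (hR : Good R) (s1 s2 : List ℤ) :
    R (s1 ++ tw 100 ++ bb ++ tw 100 ++ cA ++ tw 100 ++ s2)
      (s1 ++ tw 100 ++ cA ++ tw 100 ++ bb ++ tw 100 ++ s2) := by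
  have hm := hR.move s1 s2 100 (by norm_num) 101 100 (by norm_num)
  -- insert a zero column
  have h1 : R (s1 ++ tw 100 ++ bb ++ tw 101 ++ 0 :: (tw 100 ++ s2))
      (s1 ++ tw 201 ++ bb ++ 0 :: (tw 100 ++ s2)) := by
    rw [hR.zero (x1 := s1 ++ tw 100 ++ bb ++ tw 101) (y1 := s1 ++ tw 201 ++ bb) (by simp)]
    have e : s1 ++ tw 100 ++ bb ++ tw 101 ++ (tw 100 ++ s2) =
        s1 ++ tw 100 ++ bb ++ tw (100 + 101) ++ s2 := by
      simp only [List.append_assoc]
      rw [tw_app 101 100 (100 + 101) _ rfl]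
    rw [e]
    have := hR.symm hm
    simpa only [List.append_assoc] using this
  have h2 : R (s1 ++ tw 101 ++ 0 :: (tw 100 ++ bb) ++ (tw 100 ++ s2))
      (s1 ++ tw 101 ++ (tw 100 ++ bb) ++ 0 :: (tw 100 ++ s2)) := by
    apply hR.shift
    have h := hR.af_main 99 40 le_rfl (s1 ++ tw 55) (tw 13 ++ s2)
    have h' : AF R (s1 ++ tw 55 ++ tw 46) ((tw 100 ++ bb) ++ (tw 1 ++ tw 40))
        (tw 46 ++ (tw 13 ++ s2)) := by
      have e : tw 99 ++ BB ++ tw 40 = (tw 100 ++ bb) ++ (tw 1 ++ tw 40) := by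
        simp only [BB_eq, List.append_assoc]
        rw [tw_app 99 1 100 _ rfl]
      rw [e] at h; exact h
    have h'' := af_prefix h'
    refine hR.af_congr ?_ ?_ h''
    · simp only [dz_append, dz_tw, List.append_assoc, ← tw_add]
    · simp only [dz_append, dz_tw, List.append_assoc]
      rw [tw_app 46 13 59 _ rfl, tw_app 40 59 99 _ rfl, tw_app 1 99 100 _ rfl]
  have e1 : s1 ++ tw 100 ++ bb ++ tw 100 ++ cA ++ tw 100 ++ s2 =
      s1 ++ tw 100 ++ bb ++ tw 101 ++ 0 :: (tw 100 ++ s2) := by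
    have : tw 101 = tw 100 ++ [2] := tw_succ' 100
    rw [this]; simp [cA, List.append_assoc]
  have e2 : s1 ++ tw 100 ++ cA ++ tw 100 ++ bb ++ tw 100 ++ s2 =
      s1 ++ tw 101 ++ 0 :: (tw 100 ++ bb) ++ (tw 100 ++ s2) := by
    have : tw 101 = tw 100 ++ [2] := tw_succ' 100
    rw [this]; simp [cA, List.append_assoc]
  have e3 : s1 ++ tw 101 ++ (tw 100 ++ bb) ++ 0 :: (tw 100 ++ s2) =
      s1 ++ tw 201 ++ bb ++ 0 :: (tw 100 ++ s2) := by
    simp only [List.append_assoc]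
    rw [tw_app 101 100 201 _ rfl]
  rw [e1, e2]
  rw [e3] at h2
  exact hR.trans h1 (hR.symm h2)

/-- the state of a site -/
def cell (b : Bool) : List ℤ := if b then bb else cA
def cell' (b : Bool) : List ℤ := if b then bb else cA'

@[simp] theorem length_cell (b : Bool) : (cell b).length = 2 := by cases b <;> rfl
@[simp] theorem length_cell' (b : Bool) : (cell' b).length = 2 := by cases b <;> rfl

def enc : List Bool → List ℤ
  | [] => []
  | b :: l => cell b ++ tw 100 ++ enc l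

def enc' : List Bool → List ℤ
  | [] => []
  | b :: l => cell' b ++ tw 100 ++ enc' l

theorem enc_append (l l' : List Bool) : enc (l ++ l') = enc l ++ enc l' := by
  induction l with
  | nil => rfl
  | cons b l ih => simp [enc, ih, List.append_assoc]

theorem enc'_append (l l' : List Bool) : enc' (l ++ l') = enc' l ++ enc' l' := by
  induction l with
  | nil => rfl
  | cons b l ih => simp [enc', ih, List.append_assoc]

theorem Good.perm (hR : Good R) {l l' : List Bool} (h : l.Perm l') :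
    ∀ s1 s2, R (s1 ++ tw 100 ++ enc l ++ s2) (s1 ++ tw 100 ++ enc l' ++ s2) := by
  induction h with
  | nil => intro s1 s2; exact hR.refl _
  | cons b h ih =>
    intro s1 s2
    have := ih (s1 ++ tw 100 ++ cell b) s2
    simpa [enc, List.append_assoc] using this
  | swap a b l =>
    intro s1 s2
    cases a <;> cases b
    · exact hR.refl _
    · have := hR.swap s1 (enc l ++ s2)
      simpa [enc, cell, List.append_assoc] using this
    · have := hR.symm (hR.swap s1 (enc l ++ s2))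
      simpa [enc, cell, List.append_assoc] using this
    · exact hR.refl _
  | trans _ _ ih1 ih2 => intro s1 s2; exact hR.trans (ih1 s1 s2) (ih2 s1 s2)

theorem Good.prime (hR : Good R) (l : List Bool) :
    ∀ s1 s2, R (s1 ++ tw 100 ++ enc l ++ s2) (s1 ++ tw 100 ++ enc' l ++ s2) := by
  induction l with
  | nil => intro s1 s2; exact hR.refl _
  | cons b l ih =>
    intro s1 s2
    have h1 := ih (s1 ++ tw 100 ++ cell b) s2
    have h2 : R (s1 ++ tw 100 ++ cell b ++ tw 100 ++ enc' l ++ s2)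
        (s1 ++ tw 100 ++ cell' b ++ tw 100 ++ enc' l ++ s2) := by
      cases b with
      | true => exact hR.refl _
      | false =>
        have := hR.run1 (s1 ++ tw 99) (tw 54 ++ enc' l ++ s2)
        unfold Fr at this
        have e1 : tw 100 = tw 99 ++ tw 1 := by rw [← tw_add]
        have e2 : tw 100 = tw 46 ++ tw 54 := by rw [← tw_add]
        have f1 : s1 ++ tw 100 ++ cell false ++ tw 100 ++ enc' l ++ s2 =
          s1 ++ tw 99 ++ tw 1 ++ tw 1 ++ zs (tw 1).length ++ (tw 46 ++ (tw 54 ++ enc' l ++ s2))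
          := by
          rw [show s1 ++ tw 100 ++ cell false ++ tw 100 = s1 ++ (tw 99 ++ tw 1) ++ cell false ++
            (tw 46 ++ tw 54) by rw [← e1, ← e2]]
          rw [show cell false = tw 1 ++ zs 1 from rfl, length_tw]
          simp only [List.append_assoc]
        have f2 : s1 ++ tw 100 ++ cell' false ++ tw 100 ++ enc' l ++ s2 =
          s1 ++ tw 99 ++ tw 1 ++ zs (tw 1).length ++ tw 1 ++ (tw 46 ++ (tw 54 ++ enc' l ++ s2))
          := by
          rw [show s1 ++ tw 100 ++ cell' false ++ tw 100 = s1 ++ (tw 99 ++ tw 1) ++ cell' false ++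
            (tw 46 ++ tw 54) by rw [← e1, ← e2]]
          rw [show cell' false = zs 1 ++ tw 1 from rfl, length_tw]
          simp only [List.append_assoc]
        rw [f1, f2]
        exact this
    refine hR.trans (y := s1 ++ tw 100 ++ cell b ++ tw 100 ++ enc' l ++ s2) ?_ ?_
    · simpa [enc, List.append_assoc] using h1
    · simpa [enc', List.append_assoc] using h2

end Pool.Agent.Lib.MP_22634b_co
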