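import Pool.Agent.Lib.MP_22634b_co.Cross

set_option autoImplicit false

namespace Pool.Agent.Lib.MP_22634b_co

variable {R : List ℤ → List ℤ → Prop}

theorem perm_std (l : List Bool) :
    l.Perm (List.replicate (l.count true) true ++
      List.replicate (l.length - l.count true) false) := by
  rw [List.perm_iff_count]
  intro a
  have h := List.count_true_add_count_false l
  cases a
  · simp [List.count_replicate]; omega
  · simp [List.count_replicate]

/-- the word of level `k` -/
def FF (k : ℕ) : List ℤ :=
  tw 100 ++ enc (List.replicate k true ++ List.replicate (24 - k) false)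

theorem Good.std (hR : Good R) (l : List Bool) (hl : l.length = 24) :
    R (tw 100 ++ enc l) (FF (l.count true)) := by
  have h := hR.perm (perm_std l) [] []
  rw [hl] at h
  simpa [FF] using h

theorem AP.encs {c : ℤ} (l1 l3 : List Bool) (l2 : List ℤ)
    (h : AP c (enc l1) l2 (enc l3)) (l : List Bool) :
    AP c (tw 100 ++ enc (l1 ++ l)) (tw 100 ++ (l2 ++ enc l)) (tw 100 ++ enc (l3 ++ l)) := by
  rw [enc_append, enc_append]
  exact ((AP.refl (tw 100)).append (h.append (AP.refl (enc l)))).cast (by ring)

theorem AP.ab_rep (n : ℕ) : AP (8 * n) (enc (List.replicate n false))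
    (enc' (List.replicate n false)) (enc (List.replicate n true)) := by
  induction n with
  | zero => simpa [enc, enc'] using AP.nil
  | succ n ih =>
    rw [List.replicate_succ, List.replicate_succ]
    exact ((AP.ab.append (AP.refl (tw 100))).append ih).cast (by push_cast; ring)

theorem AP.ba_rep (n : ℕ) : AP (8 * n) (enc (List.replicate n true))
    (enc' (List.replicate n false)) (enc (List.replicate n false)) := by
  induction n with
  | zero => simpa [enc, enc'] using AP.nil
  | succ n ih =>
    rw [List.replicate_succ, List.replicate_succ]
    exact ((AP.ba.append (AP.refl (tw 100))).append ih).cast (by push_cast; ring)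

/-- the constraint on the levels -/
theorem Good.level (hR : Good R) (q a b : ℕ) (hab : a + b = 12) (hq : q ≤ 12) :
    (R (FF q) (FF (q + a)) ∨ R (FF q) (FF (q + b)) ∨ R (FF (q + a)) (FF (q + b))) ∧
    ¬ (R (FF q) (FF (q + a)) ∧ R (FF q) (FF (q + b))) := by
  set l : List Bool := List.replicate q true ++ List.replicate (12 - q) false with hl
  have hll : l.length = 12 := by simp [hl]; omega
  have hlc : l.count true = q := by simp [hl, List.count_replicate]
  -- the progression
  have e1 : AP (8 * b + 8 * a) (enc (List.replicate b false ++ List.replicate a true))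
      (enc' (List.replicate 12 false))
      (enc (List.replicate b true ++ List.replicate a false)) := by
    have : List.replicate 12 false = List.replicate b false ++ List.replicate a false := by
      rw [List.replicate_append_replicate, show b + a = 12 by omega]
    rw [this, enc_append, enc_append, enc'_append]
    exact (AP.ab_rep b).append (AP.ba_rep a)
  have e2 := (AP.encs _ _ _ e1 l).cast (c' := 96) (by
    have : (a : ℤ) + b = 12 := by exact_mod_cast hab
    linarith)
  -- the three classes
  have hx := hR.std (List.replicate b false ++ List.replicate a true ++ l)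
    (by simp [hll]; omega)
  have hxc : (List.replicate b false ++ List.replicate a true ++ l).count true = q + a := by
    simp [List.count_replicate, hlc]; omega
  rw [hxc] at hx
  have hz := hR.std (List.replicate b true ++ List.replicate a false ++ l)
    (by simp [hll]; omega)
  have hzc : (List.replicate b true ++ List.replicate a false ++ l).count true = q + b := by
    simp [List.count_replicate, hlc]; omega
  rw [hzc] at hz
  have hy0 := hR.std (List.replicate 12 false ++ l) (by simp [hll])
  have hyc : (List.replicate 12 false ++ l).count true = q := by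
    simp [hlc]
  rw [hyc, enc_append] at hy0
  have hy1 := hR.prime (List.replicate 12 false) [] (enc l)
  have hy : R (tw 100 ++ (enc' (List.replicate 12 false) ++ enc l)) (FF q) := by
    refine hR.trans ?_ hy0
    have := hR.symm hy1
    simpa only [List.nil_append, List.append_assoc] using this
  constructor
  · rcases hR.some e2 with h | h | h
    · left; exact hR.symm (hR.trans (hR.symm hx) (hR.trans h hy))
    · right; left; exact hR.trans (hR.symm hy) (hR.trans h hz)
    · right; right; exact hR.trans (hR.symm hx) (hR.trans h hz)
  · rintro ⟨h1, h2⟩
    exact hR.nmono e2 (hR.trans hx (hR.symm (hR.trans hy h1)))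
      (hR.trans hy (hR.trans h2 (hR.symm hz)))

theorem level_contra {α : Type} (f : ℕ → α)
    (h : ∀ q k, q + 6 + k ≤ 12 → k ≤ 6 →
      (f q = f (q + 6 - k) ∨ f q = f (q + 6 + k) ∨ f (q + 6 - k) = f (q + 6 + k)) ∧
        ¬ (f q = f (q + 6 - k) ∧ f q = f (q + 6 + k))) : False := by
  have h00 := h 0 0 (by norm_num) (by norm_num)
  have h10 := h 1 0 (by norm_num) (by norm_num)
  have h20 := h 2 0 (by norm_num) (by norm_num)
  have h30 := h 3 0 (by norm_num) (by norm_num)
  have h40 := h 4 0 (by norm_num) (by norm_num)
  have h50 := h 5 0 (by norm_num) (by norm_num)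
  have h60 := h 6 0 (by norm_num) (by norm_num)
  have h01 := h 0 1 (by norm_num) (by norm_num)
  have h11 := h 1 1 (by norm_num) (by norm_num)
  have h21 := h 2 1 (by norm_num) (by norm_num)
  have h31 := h 3 1 (by norm_num) (by norm_num)
  have h41 := h 4 1 (by norm_num) (by norm_num)
  have h51 := h 5 1 (by norm_num) (by norm_num)
  have h02 := h 0 2 (by norm_num) (by norm_num)
  have h12 := h 1 2 (by norm_num) (by norm_num)
  have h22 := h 2 2 (by norm_num) (by norm_num)
  have h32 := h 3 2 (by norm_num) (by norm_num)
  have h42 := h 4 2 (by norm_num) (by norm_num)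
  have h03 := h 0 3 (by norm_num) (by norm_num)
  have h13 := h 1 3 (by norm_num) (by norm_num)
  have h23 := h 2 3 (by norm_num) (by norm_num)
  have h33 := h 3 3 (by norm_num) (by norm_num)
  have h04 := h 0 4 (by norm_num) (by norm_num)
  have h14 := h 1 4 (by norm_num) (by norm_num)
  have h24 := h 2 4 (by norm_num) (by norm_num)
  have h05 := h 0 5 (by norm_num) (by norm_num)
  have h15 := h 1 5 (by norm_num) (by norm_num)
  have h06 := h 0 6 (by norm_num) (by norm_num)
  norm_num at *
  clear h
  generalize f 0 = a0 at *
  generalize f 1 = a1 at *
  generalize f 2 = a2 at *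
  generalize f 3 = a3 at *
  generalize f 4 = a4 at *
  generalize f 5 = a5 at *
  generalize f 6 = a6 at *
  generalize f 7 = a7 at *
  generalize f 8 = a8 at *
  generalize f 9 = a9 at *
  generalize f 10 = a10 at *
  generalize f 11 = a11 at *
  generalize f 12 = a12 at *
  grind (splits := 60)

/-- there is no good relation -/
theorem Good.false (hR : Good R) : False := by
  apply level_contra (fun k => {y | R (FF k) y})
  intro q k hqk hk
  have key : ∀ a b, ({y | R (FF a) y} = {y | R (FF b) y}) ↔ R (FF a) (FF b) := by
    intro a b
    constructor
    · intro h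
      have : FF b ∈ {y | R (FF b) y} := hR.refl _
      rw [← h] at this
      exact this
    · intro h
      ext y
      exact ⟨fun h' => hR.trans (hR.symm h) h', fun h' => hR.trans h h'⟩
  simp only [key]
  have := hR.level q (6 - k) (6 + k) (by omega) (by omega)
  have e1 : q + (6 - k) = q + 6 - k := by omega
  have e2 : q + (6 + k) = q + 6 + k := by omega
  rw [e1, e2] at this
  exact this

end Pool.Agent.Lib.MP_22634b_co
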