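import Pool.Agent.Lib.MP_22634b_co.Final

set_option autoImplicit false

namespace Pool.Agent.Lib.MP_22634b_co

open Filter

/-- iterated limit of equality of colours -/
def QQ {α : Type*} (c : (ℕ →₀ ℤ) → α) : List (ℤ × ℤ) → (ℕ →₀ ℤ) → (ℕ →₀ ℤ) → Prop
  | [], X, Y => c X = c Y
  | (p :: L), X, Y => ∀ᶠ i in (hyperfilter ℕ : Filter ℕ),
      QQ c L (X + Finsupp.single i p.1) (Y + Finsupp.single i p.2)

/-- the limit relation -/
def RR {α : Type*} (c : (ℕ →₀ ℤ) → α) (x y : List ℤ) : Prop :=
  x.length = y.length ∧ QQ c (x.zip y) 0 0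

section

variable {α : Type*} {c : (ℕ →₀ ℤ) → α}

theorem QQ_nil (X Y : ℕ →₀ ℤ) : QQ c [] X Y ↔ c X = c Y := Iff.rfl

theorem QQ_cons (p : ℤ × ℤ) (L : List (ℤ × ℤ)) (X Y : ℕ →₀ ℤ) : QQ c (p :: L) X Y ↔
    ∀ᶠ i in (hyperfilter ℕ : Filter ℕ),
      QQ c L (X + Finsupp.single i p.1) (Y + Finsupp.single i p.2) := Iff.rfl

theorem QQ_refl (x : List ℤ) : ∀ X, QQ c (x.zip x) X X := by
  induction x with
  | nil => intro X; rfl
  | cons a x ih =>
    intro X
    rw [List.zip_cons_cons, QQ_cons]
    exact Eventually.of_forall (fun i => ih _)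

theorem QQ_symm (x : List ℤ) : ∀ (y : List ℤ) (X Y : ℕ →₀ ℤ),
    QQ c (x.zip y) X Y → QQ c (y.zip x) Y X := by
  induction x with
  | nil => intro y X Y h; simp at h ⊢; exact h.symm
  | cons a x ih =>
    intro y X Y h
    cases y with
    | nil => simp at h ⊢; exact h.symm
    | cons b y =>
      rw [List.zip_cons_cons, QQ_cons] at h ⊢
      exact h.mono (fun i hi => ih _ _ _ hi)

theorem QQ_trans (x : List ℤ) : ∀ (y z : List ℤ) (X Y Z : ℕ →₀ ℤ), x.length = y.length →
    y.length = z.length → QQ c (x.zip y) X Y → QQ c (y.zip z) Y Z → QQ c (x.zip z) X Z := by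
  induction x with
  | nil =>
    intro y z X Y Z h1 h2 h3 h4
    have hy : y = [] := by
      apply List.eq_nil_of_length_eq_zero; rw [← h1]; rfl
    subst hy
    have hz : z = [] := by
      apply List.eq_nil_of_length_eq_zero; rw [← h2]; rfl
    subst hz
    exact Eq.trans (α := α) h3 h4
  | cons a x ih =>
    intro y z X Y Z h1 h2 h3 h4
    cases y with
    | nil => simp at h1
    | cons b y =>
      cases z with
      | nil => simp at h2
      | cons d z =>
        rw [List.zip_cons_cons, QQ_cons] at h3 h4 ⊢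
        filter_upwards [h3, h4] with i hi hi'
        exact ih y z _ _ _ (by simpa using h1) (by simpa using h2) hi hi'

theorem QQ_zero (x1 : List ℤ) : ∀ (y1 x2 y2 : List ℤ) (X Y : ℕ →₀ ℤ), x1.length = y1.length →
    (QQ c ((x1 ++ 0 :: x2).zip (y1 ++ 0 :: y2)) X Y ↔ QQ c ((x1 ++ x2).zip (y1 ++ y2)) X Y) := by
  induction x1 with
  | nil =>
    intro y1 x2 y2 X Y h1
    have hy : y1 = [] := by
      apply List.eq_nil_of_length_eq_zero; rw [← h1]; rfl
    subst hy
    rw [List.nil_append, List.nil_append, List.zip_cons_cons, QQ_cons]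
    simp
  | cons a x1 ih =>
    intro y1 x2 y2 X Y h1
    cases y1 with
    | nil => simp at h1
    | cons b y1 =>
      rw [List.cons_append, List.cons_append, List.cons_append, List.cons_append,
        List.zip_cons_cons, List.zip_cons_cons, QQ_cons, QQ_cons]
      have := ih y1 x2 y2
      constructor
      · intro h
        exact h.mono (fun i hi => (this _ _ (by simpa using h1)).1 hi)
      · intro h
        exact h.mono (fun i hi => (this _ _ (by simpa using h1)).2 hi)

/-- squared norm -/
def sq (D : ℕ →₀ ℤ) : ℤ := D.sum (fun _ v => v ^ 2)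

theorem sq_add_single (D : ℕ →₀ ℤ) (i : ℕ) (a : ℤ) (hi : i ∉ D.support) :
    sq (D + Finsupp.single i a) = sq D + a ^ 2 := by
  unfold sq
  rw [Finsupp.sum_add_index_of_disjoint]
  · simp
  · rw [Finset.disjoint_left]
    intro j hj hj'
    have := Finsupp.support_single_subset hj'
    simp only [Finset.mem_singleton] at this
    subst this
    exact hi hj

theorem ev_notMem (s : Finset ℕ) : ∀ᶠ i in (hyperfilter ℕ : Filter ℕ), i ∉ s := by
  have h : (↑s : Set ℕ)ᶜ ∈ (cofinite : Filter ℕ) := by
    rw [mem_cofinite, compl_compl]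
    exact s.finite_toSet
  exact hyperfilter_le_cofinite h

theorem QQ_some (hc : ∀ X D : ℕ →₀ ℤ, sq D = 96 →
      c X = c (X + D) ∨ c (X + D) = c (X + D + D) ∨ c X = c (X + D + D))
    {t : ℤ} {x y z : List ℤ} (h : AP t x y z) : ∀ X D : ℕ →₀ ℤ, sq D + t = 96 →
    QQ c (x.zip y) X (X + D) ∨ QQ c (y.zip z) (X + D) (X + D + D) ∨
      QQ c (x.zip z) X (X + D + D) := by
  induction h with
  | nil => intro X D h; exact hc X D (by simpa using h)
  | @cons t x y z a b d h _ ih =>
    intro X D hD
    rw [List.zip_cons_cons, List.zip_cons_cons, List.zip_cons_cons, QQ_cons, QQ_cons, QQ_cons]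
    have key : ∀ᶠ i in (hyperfilter ℕ : Filter ℕ),
        QQ c (x.zip y) (X + Finsupp.single i a) (X + D + Finsupp.single i b) ∨
        QQ c (y.zip z) (X + D + Finsupp.single i b) (X + D + D + Finsupp.single i d) ∨
        QQ c (x.zip z) (X + Finsupp.single i a) (X + D + D + Finsupp.single i d) := by
      filter_upwards [ev_notMem D.support] with i hi
      have h2 := ih (X + Finsupp.single i a) (D + Finsupp.single i (b - a))
        (by rw [sq_add_single D i _ hi]; linarith)
      have e1 : X + Finsupp.single i a + (D + Finsupp.single i (b - a)) =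
          X + D + Finsupp.single i b := by
        have : Finsupp.single i b = Finsupp.single i a + Finsupp.single i (b - a) := by
          rw [← Finsupp.single_add]; congr 1; ring
        rw [this]; abel
      have e2 : X + D + Finsupp.single i b + (D + Finsupp.single i (b - a)) =
          X + D + D + Finsupp.single i d := by
        have : Finsupp.single i d = Finsupp.single i b + Finsupp.single i (b - a) := by
          rw [← Finsupp.single_add]; congr 1; linarith
        rw [this]; abel
      rw [e1, e2] at h2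
      exact h2
    rw [Ultrafilter.eventually_or, Ultrafilter.eventually_or] at key
    exact key

theorem QQ_nmono (hc : ∀ X D : ℕ →₀ ℤ, sq D = 96 →
      c X = c (X + D) → c (X + D) = c (X + D + D) → False)
    {t : ℤ} {x y z : List ℤ} (h : AP t x y z) : ∀ X D : ℕ →₀ ℤ, sq D + t = 96 →
    QQ c (x.zip y) X (X + D) → QQ c (y.zip z) (X + D) (X + D + D) → False := by
  induction h with
  | nil => intro X D h; exact hc X D (by simpa using h)
  | @cons t x y z a b d h _ ih =>
    intro X D hD
    rw [List.zip_cons_cons, List.zip_cons_cons, QQ_cons, QQ_cons]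
    intro h1 h2
    have key : ∀ᶠ i in (hyperfilter ℕ : Filter ℕ), False := by
      filter_upwards [ev_notMem D.support, h1, h2] with i hi hi1 hi2
      have e1 : X + Finsupp.single i a + (D + Finsupp.single i (b - a)) =
          X + D + Finsupp.single i b := by
        have : Finsupp.single i b = Finsupp.single i a + Finsupp.single i (b - a) := by
          rw [← Finsupp.single_add]; congr 1; ring
        rw [this]; abel
      have e2 : X + D + Finsupp.single i b + (D + Finsupp.single i (b - a)) =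
          X + D + D + Finsupp.single i d := by
        have : Finsupp.single i d = Finsupp.single i b + Finsupp.single i (b - a) := by
          rw [← Finsupp.single_add]; congr 1; linarith
        rw [this]; abel
      have h3 := ih (X + Finsupp.single i a) (D + Finsupp.single i (b - a))
        (by rw [sq_add_single D i _ hi]; linarith)
      rw [e1, e2] at h3
      exact h3 hi1 hi2
    exact key.exists.elim (fun _ h => h)

theorem good_RR
    (hc1 : ∀ X D : ℕ →₀ ℤ, sq D = 96 →
      c X = c (X + D) ∨ c (X + D) = c (X + D + D) ∨ c X = c (X + D + D))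
    (hc2 : ∀ X D : ℕ →₀ ℤ, sq D = 96 →
      c X = c (X + D) → c (X + D) = c (X + D + D) → False) : Good (RR c) where
  len := fun h => h.1
  refl := fun x => ⟨rfl, QQ_refl x 0⟩
  symm := fun h => ⟨h.1.symm, QQ_symm _ _ _ _ h.2⟩
  trans := fun h h' => ⟨h.1.trans h'.1, QQ_trans _ _ _ _ _ _ h.1 h'.1 h.2 h'.2⟩
  zero := by
    intro x1 x2 y1 y2 hl
    unfold RR
    rw [QQ_zero x1 y1 x2 y2 0 0 hl]
    constructor
    · rintro ⟨h1, h2⟩
      refine ⟨?_, h2⟩
      simp at h1 ⊢; omega
    · rintro ⟨h1, h2⟩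
      refine ⟨?_, h2⟩
      simp at h1 ⊢; omega
  some := by
    intro x y z h
    have hlen : ∀ {t : ℤ} {x y z : List ℤ}, AP t x y z → x.length = y.length ∧
        y.length = z.length := by
      intro t x y z h
      induction h with
      | nil => exact ⟨rfl, rfl⟩
      | cons a b d h _ ih => simp [ih.1, ih.2]
    obtain ⟨l1, l2⟩ := hlen h
    have := QQ_some hc1 h 0 0 (by simp [sq])
    simp only [add_zero] at this
    rcases this with h | h | h
    · exact Or.inl ⟨l1, h⟩
    · exact Or.inr (Or.inl ⟨l2, h⟩)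
    · exact Or.inr (Or.inr ⟨l1.trans l2, h⟩)
  nmono := by
    intro x y z h h1 h2
    have := QQ_nmono hc2 h 0 0 (by simp [sq])
    simp only [add_zero] at this
    exact this h1.2 h2.2

end

/-- the embedding of integer vectors -/
noncomputable def emb (n : ℕ) (X : ℕ →₀ ℤ) : EuclideanSpace ℝ (Fin n) :=
  WithLp.toLp 2 (fun i => (X i : ℝ) / √96)

theorem emb_add (n : ℕ) (X Y : ℕ →₀ ℤ) : emb n (X + Y) = emb n X + emb n Y := by
  ext i
  simp [emb]
  ring

theorem norm_emb (n : ℕ) (D : ℕ →₀ ℤ) (hs : D.support ⊆ Finset.range n) (h : sq D = 96) :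
    ‖emb n D‖ = 1 := by
  have h1 : ∑ i : Fin n, ‖(emb n D) i‖ ^ 2 = 1 := by
    have h2 : ∀ i : Fin n, ‖(emb n D) i‖ ^ 2 = ((D i : ℤ) : ℝ) ^ 2 / 96 := by
      intro i
      have : (√(96 : ℝ)) ^ 2 = 96 := Real.sq_sqrt (by norm_num)
      simp only [emb, Real.norm_eq_abs, sq_abs, div_pow, this]
    rw [Finset.sum_congr rfl (fun i _ => h2 i), ← Finset.sum_div]
    have h3 : ∑ i : Fin n, ((D i : ℤ) : ℝ) ^ 2 = 96 := by
      rw [Fin.sum_univ_eq_sum_range (fun i => ((D i : ℤ) : ℝ) ^ 2) n]
      have h4 : ((sq D : ℤ) : ℝ) = 96 := by rw [h]; norm_num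
      rw [← h4]
      unfold sq
      rw [Finsupp.sum_of_support_subset D hs _ (by simp)]
      push_cast
      rfl
    rw [h3]; norm_num
  rw [EuclideanSpace.norm_eq, h1, Real.sqrt_one]

theorem main_theorem : ∃ n : ℕ, ∀ χ : EuclideanSpace ℝ (Fin n) → ℝ,
      ∃ a b c : EuclideanSpace ℝ (Fin n),
        dist a b = 1 ∧ dist b c = 1 ∧ dist a c = 2 ∧
        ((χ a = χ b ∧ χ b = χ c) ∨ (χ a ≠ χ b ∧ χ b ≠ χ c ∧ χ a ≠ χ c)) := by
  by_contra hcon
  push Not at hcon
  choose χ hχ using hcon
  -- the limit colouring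
  let c : (ℕ →₀ ℤ) → Filter.Germ (hyperfilter ℕ : Filter ℕ) ℝ :=
    fun X => ((fun n => χ n (emb n X) : ℕ → ℝ) : Filter.Germ (hyperfilter ℕ : Filter ℕ) ℝ)
  have hcc : ∀ X Y, c X = c Y ↔
      ∀ᶠ n in (hyperfilter ℕ : Filter ℕ), χ n (emb n X) = χ n (emb n Y) := by
    intro X Y
    exact Filter.Germ.coe_eq
  have hev : ∀ X D : ℕ →₀ ℤ, sq D = 96 → ∀ᶠ n in (hyperfilter ℕ : Filter ℕ),
      (χ n (emb n X) = χ n (emb n (X + D)) ∨
        χ n (emb n (X + D)) = χ n (emb n (X + D + D)) ∨
        χ n (emb n X) = χ n (emb n (X + D + D))) ∧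
      ¬ (χ n (emb n X) = χ n (emb n (X + D)) ∧
        χ n (emb n (X + D)) = χ n (emb n (X + D + D))) := by
    intro X D hD
    obtain ⟨m, hm⟩ := D.support.exists_nat_subset_range
    filter_upwards [ev_notMem (Finset.range m)] with n hn
    have hmn : m ≤ n := by simpa using hn
    have hs : D.support ⊆ Finset.range n := by
      intro i hi
      have := hm hi
      simp only [Finset.mem_range] at this ⊢
      omega
    have hnorm := norm_emb n D hs hD
    have h1 : dist (emb n X) (emb n (X + D)) = 1 := by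
      rw [emb_add, dist_self_add_right, hnorm]
    have h2 : dist (emb n (X + D)) (emb n (X + D + D)) = 1 := by
      rw [emb_add n (X + D) D, dist_self_add_right, hnorm]
    have h3 : dist (emb n X) (emb n (X + D + D)) = 2 := by
      rw [add_assoc, emb_add n X, dist_self_add_right, emb_add, ← two_smul ℝ, norm_smul, hnorm]
      norm_num
    have h4 := hχ n (emb n X) (emb n (X + D)) (emb n (X + D + D)) h1 h2 h3
    constructor
    · by_contra h5
      push Not at h5
      exact h5.2.2 (h4.2 h5.1 h5.2.1)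
    · rintro ⟨h5, h6⟩
      exact h4.1 h5 h6
  have hc1 : ∀ X D : ℕ →₀ ℤ, sq D = 96 →
      c X = c (X + D) ∨ c (X + D) = c (X + D + D) ∨ c X = c (X + D + D) := by
    intro X D hD
    rw [hcc, hcc, hcc, ← Ultrafilter.eventually_or, ← Ultrafilter.eventually_or]
    exact (hev X D hD).mono (fun n hn => hn.1)
  have hc2 : ∀ X D : ℕ →₀ ℤ, sq D = 96 →
      c X = c (X + D) → c (X + D) = c (X + D + D) → False := by
    intro X D hD h1 h2
    rw [hcc] at h1 h2
    have : ∀ᶠ n in (hyperfilter ℕ : Filter ℕ), False := by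
      filter_upwards [hev X D hD, h1, h2] with n hn h1 h2
      exact hn.2 ⟨h1, h2⟩
    exact this.exists.elim (fun _ h => h)
  exact (good_RR hc1 hc2).false

end Pool.Agent.Lib.MP_22634b_co
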