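import Pool.Agent.Lib.MP_22634b_co.Basic

set_option autoImplicit false

namespace Pool.Agent.Lib.MP_22634b_co

variable {R : List ℤ → List ℤ → Prop}

theorem AP.tz (n : ℕ) : AP n (tw n) (on n) (zs n) := by
  have := AP.rep n 2 1 0 (by norm_num)
  exact this.cast (by ring)

theorem AP.zt (n : ℕ) : AP n (zs n) (on n) (tw n) := by
  have := AP.rep n 0 1 2 (by norm_num)
  exact this.cast (by ring)

/-- exactly two classes, packaged -/
theorem Good.two (hR : Good R) {x y z : List ℤ} (h : AP 96 x y z) (h1 : ¬ R x z) :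
    R x y ∨ R z y := by
  rcases hR.some h with h' | h' | h'
  · exact Or.inl h'
  · exact Or.inr (hR.symm h')
  · exact absurd h' h1

/-- the run lemma: in a run of twos, a letter with at least one two to its left and at least
46 twos to its right is free -/
theorem Good.run1 (hR : Good R) (s1 s2 : List ℤ) : Fr R (s1 ++ tw 1) (tw 1) (tw 46 ++ s2) := by
  by_contra hn
  -- the six vectors and the middle vector
  have ap1 : AP 96 (s1 ++ tw 1 ++ tw 1 ++ tw 46 ++ zs 1 ++ zs 1 ++ zs 46 ++ s2)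
      (s1 ++ on 1 ++ on 1 ++ on 46 ++ on 1 ++ on 1 ++ on 46 ++ s2)
      (s1 ++ zs 1 ++ zs 1 ++ zs 46 ++ tw 1 ++ tw 1 ++ tw 46 ++ s2) :=
    ((((((((AP.refl s1).append (AP.tz 1)).append (AP.tz 1)).append (AP.tz 46)).append
      (AP.zt 1)).append (AP.zt 1)).append (AP.zt 46)).append (AP.refl s2)).cast (by norm_num)
  have ap2 : AP 96 (s1 ++ tw 1 ++ zs 1 ++ tw 46 ++ tw 1 ++ zs 1 ++ zs 46 ++ s2)
      (s1 ++ on 1 ++ on 1 ++ on 46 ++ on 1 ++ on 1 ++ on 46 ++ s2)
      (s1 ++ zs 1 ++ tw 1 ++ zs 46 ++ zs 1 ++ tw 1 ++ tw 46 ++ s2) :=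
    ((((((((AP.refl s1).append (AP.tz 1)).append (AP.zt 1)).append (AP.tz 46)).append
      (AP.tz 1)).append (AP.zt 1)).append (AP.zt 46)).append (AP.refl s2)).cast (by norm_num)
  have ap3 : AP 96 (s1 ++ tw 1 ++ zs 1 ++ tw 46 ++ zs 1 ++ tw 1 ++ zs 46 ++ s2)
      (s1 ++ on 1 ++ on 1 ++ on 46 ++ on 1 ++ on 1 ++ on 46 ++ s2)
      (s1 ++ zs 1 ++ tw 1 ++ zs 46 ++ tw 1 ++ zs 1 ++ tw 46 ++ s2) :=
    ((((((((AP.refl s1).append (AP.tz 1)).append (AP.zt 1)).append (AP.tz 46)).append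
      (AP.zt 1)).append (AP.tz 1)).append (AP.zt 46)).append (AP.refl s2)).cast (by norm_num)
  -- a way to use `n1`
  have key : ∀ {u1 u2 v1 v2 : List ℤ}, u1.length = v1.length →
      dz u1 = dz (s1 ++ tw 1) → dz u2 = dz (tw 46 ++ s2) →
      R (u1 ++ tw 1 ++ u2) (v1 ++ zs 1 ++ v2) → False := by
    intro u1 u2 v1 v2 hl h1 h2 h
    have := hR.n1 (B := tw 1) hl h
    exact hn (hR.fr_congr h1 h2 this)
  set X123 := s1 ++ tw 1 ++ tw 1 ++ tw 46 ++ zs 1 ++ zs 1 ++ zs 46 ++ s2 with hX123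
  set X456 := s1 ++ zs 1 ++ zs 1 ++ zs 46 ++ tw 1 ++ tw 1 ++ tw 46 ++ s2 with hX456
  set X134 := s1 ++ tw 1 ++ zs 1 ++ tw 46 ++ tw 1 ++ zs 1 ++ zs 46 ++ s2 with hX134
  set X256 := s1 ++ zs 1 ++ tw 1 ++ zs 46 ++ zs 1 ++ tw 1 ++ tw 46 ++ s2 with hX256
  set X135 := s1 ++ tw 1 ++ zs 1 ++ tw 46 ++ zs 1 ++ tw 1 ++ zs 46 ++ s2 with hX135
  set X246 := s1 ++ zs 1 ++ tw 1 ++ zs 46 ++ tw 1 ++ zs 1 ++ tw 46 ++ s2 with hX246
  have t46 : tw 46 = tw 1 ++ tw 45 := by rw [← tw_add]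
  have t46' : tw 46 = tw 45 ++ tw 1 := by rw [← tw_add]
  have z46 : zs 46 = zs 1 ++ zs 45 := by rw [← zs_add]
  -- second letter of X123 is in block 2
  have a1 : ∀ v1 v2, v1.length = s1.length + 1 → R X123 (v1 ++ zs 1 ++ v2) → False := by
    intro v1 v2 hl h
    refine key (u1 := s1 ++ tw 1) (u2 := tw 46 ++ zs 1 ++ zs 1 ++ zs 46 ++ s2) (v1 := v1)
      (v2 := v2) (by simp [hl]) rfl (by simp) ?_
    simpa [hX123, List.append_assoc] using h
  -- second letter of X456 is in block 5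
  have a2 : ∀ v1 v2, v1.length = s1.length + 49 → R X456 (v1 ++ zs 1 ++ v2) → False := by
    intro v1 v2 hl h
    refine key (u1 := s1 ++ zs 1 ++ zs 1 ++ zs 46 ++ tw 1) (u2 := tw 46 ++ s2) (v1 := v1)
      (v2 := v2) (by simp [hl]) (by simp) (by simp) ?_
    simpa [hX456, List.append_assoc] using h
  -- second letter of X134 is the first of block 3
  have a3 : ∀ v1 v2, v1.length = s1.length + 2 → R X134 (v1 ++ zs 1 ++ v2) → False := by
    intro v1 v2 hl h
    refine key (u1 := s1 ++ tw 1 ++ zs 1) (u2 := tw 45 ++ tw 1 ++ zs 1 ++ zs 46 ++ s2) (v1 := v1)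
      (v2 := v2) (by simp [hl]) (by simp) (by simp [t46']) ?_
    rw [hX134, t46] at h
    simpa [List.append_assoc] using h
  have a4 : ∀ v1 v2, v1.length = s1.length + 49 → R X256 (v1 ++ zs 1 ++ v2) → False := by
    intro v1 v2 hl h
    refine key (u1 := s1 ++ zs 1 ++ tw 1 ++ zs 46 ++ zs 1) (u2 := tw 46 ++ s2) (v1 := v1)
      (v2 := v2) (by simp [hl]) (by simp) (by simp) ?_
    simpa [hX256, List.append_assoc] using h
  have a5 : ∀ v1 v2, v1.length = s1.length + 2 → R X135 (v1 ++ zs 1 ++ v2) → False := by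
    intro v1 v2 hl h
    refine key (u1 := s1 ++ tw 1 ++ zs 1) (u2 := tw 45 ++ zs 1 ++ tw 1 ++ zs 46 ++ s2) (v1 := v1)
      (v2 := v2) (by simp [hl]) (by simp) (by simp [t46']) ?_
    rw [hX135, t46] at h
    simpa [List.append_assoc] using h
  have a6 : ∀ v1 v2, v1.length = s1.length + 48 → R X246 (v1 ++ zs 1 ++ v2) → False := by
    intro v1 v2 hl h
    refine key (u1 := s1 ++ zs 1 ++ tw 1 ++ zs 46) (u2 := zs 1 ++ tw 46 ++ s2) (v1 := v1)
      (v2 := v2) (by simp [hl]) (by simp) (by simp) ?_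
    simpa [hX246, List.append_assoc] using h
  -- no two of the following are equivalent
  have b1 : ¬ R X123 X456 := fun h => a1 (s1 ++ zs 1) (zs 46 ++ tw 1 ++ tw 1 ++ tw 46 ++ s2)
    (by simp) (by simpa [hX456, List.append_assoc] using h)
  have b2 : ¬ R X134 X256 := by
    intro h
    refine a3 (s1 ++ zs 1 ++ tw 1) (zs 45 ++ zs 1 ++ tw 1 ++ tw 46 ++ s2) (by simp) ?_
    rw [hX256, z46] at h
    simpa [List.append_assoc] using h
  have b3 : ¬ R X135 X246 := by
    intro h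
    refine a5 (s1 ++ zs 1 ++ tw 1) (zs 45 ++ tw 1 ++ zs 1 ++ tw 46 ++ s2) (by simp) ?_
    rw [hX246, z46] at h
    simpa [List.append_assoc] using h
  have b4 : ¬ R X123 X134 := fun h => a1 (s1 ++ tw 1) (tw 46 ++ tw 1 ++ zs 1 ++ zs 46 ++ s2)
    (by simp) (by simpa [hX134, List.append_assoc] using h)
  have b5 : ¬ R X256 X123 := fun h => a4 (s1 ++ tw 1 ++ tw 1 ++ tw 46 ++ zs 1) (zs 46 ++ s2)
    (by simp) (by simpa [hX123, List.append_assoc] using h)
  have b6 : ¬ R X135 X456 := by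
    intro h
    refine a5 (s1 ++ zs 1 ++ zs 1) (zs 45 ++ tw 1 ++ tw 1 ++ tw 46 ++ s2) (by simp) ?_
    rw [hX456, z46] at h
    simpa [List.append_assoc] using h
  have b7 : ¬ R X456 X246 := fun h => a2 (s1 ++ zs 1 ++ tw 1 ++ zs 46 ++ tw 1) (tw 46 ++ s2)
    (by simp) (by simpa [hX246, List.append_assoc] using h)
  rcases hR.two ap1 b1 with h1 | h1
  · rcases hR.two ap2 b2 with h2 | h2
    · exact b4 (hR.trans h1 (hR.symm h2))
    · exact b5 (hR.trans h2 (hR.symm h1))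
  · rcases hR.two ap3 b3 with h2 | h2
    · exact b6 (hR.trans h2 (hR.symm h1))
    · exact b7 (hR.trans h1 (hR.symm h2))

/-- mirrored run lemma -/
theorem Good.run1' (hR : Good R) (s1 s2 : List ℤ) : Fr R (s1 ++ tw 46) (tw 1) (tw 1 ++ s2) := by
  have h := hR.rev.run1 s2.reverse s1.reverse
  unfold Fr at *
  have hz : ∀ n, (zs n).reverse = zs n := by intro n; simp [zs]
  have ht : ∀ n, (tw n).reverse = tw n := by intro n; simp [tw]
  simp only [List.reverse_append, hz, ht, List.reverse_reverse, length_tw] at h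
  have := hR.symm h
  simpa [List.append_assoc] using this

theorem Good.af_run (hR : Good R) (n : ℕ) : ∀ (s1 s2 : List ℤ),
    AF R (s1 ++ tw 1) (tw n) (tw 46 ++ s2) := by
  induction n with
  | zero => intro s1 s2; simpa [tw] using af_nil
  | succ n ih =>
    intro s1 s2
    rw [tw_succ n]
    apply af_cons
    · have := hR.run1 s1 (tw n ++ s2)
      refine hR.fr_congr (B := [2]) rfl ?_ this
      simp [← tw_add, ← List.append_assoc, Nat.add_comm]
    · have := ih (s1 ++ tw 1) s2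
      simpa [tw, List.append_assoc] using this

theorem Good.af_run' (hR : Good R) (n : ℕ) : ∀ (s1 s2 : List ℤ),
    AF R (s1 ++ tw 46) (tw n) (tw 1 ++ s2) := by
  induction n with
  | zero => intro s1 s2; simpa [tw] using af_nil
  | succ n ih =>
    intro s1 s2
    rw [tw_succ n]
    apply af_cons
    · have := hR.run1' s1 (tw n ++ s2)
      refine hR.fr_congr (B := [2]) rfl ?_ this
      simp [← tw_add, ← List.append_assoc, Nat.add_comm]
    · have := ih (s1 ++ tw 1) s2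
      refine hR.af_congr ?_ rfl this
      have e : tw 1 ++ tw 46 = tw 46 ++ tw 1 := by rw [← tw_add, ← tw_add]
      have e2 : ([2] : List ℤ) = tw 1 := rfl
      simp only [dz_append, dz_tw, List.append_assoc, e2]
      rw [e]

end Pool.Agent.Lib.MP_22634b_co
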